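import Pool.Agent.R974.BW.Defs

/-! Project BW (helper974), piece RAD: the norm of a three-dimensional Gaussian vector. -/

set_option autoImplicit false

namespace Pool.Agent.R734.BW

open MeasureTheory ProbabilityTheory Filter Topology Set
open Pool.Agent.R974.BW
open scoped ENNReal NNReal Real

lemma lint_gauss {t : ℝ≥0} (ht : 0 < t) {f : ℝ → ℝ≥0∞} (hf : Measurable f) :
    ∫⁻ a, f a ∂(gaussianReal 0 t) = ∫⁻ a, gaussianPDF 0 t a * f a := by
  rw [gaussianReal_of_var_ne_zero 0 ht.ne',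
    lintegral_withDensity_eq_lintegral_mul _ (measurable_gaussianPDF 0 t) hf]
  rfl

lemma pdf_mul {t : ℝ≥0} (ht : 0 < t) (a b : ℝ) :
    gaussianPDF 0 t a * gaussianPDF 0 t b =
      ENNReal.ofReal ((2 * π * t)⁻¹ * Real.exp (-(a ^ 2 + b ^ 2) / (2 * t))) := by
  unfold gaussianPDF gaussianPDFReal
  rw [← ENNReal.ofReal_mul (by positivity)]
  congr 1
  have h1 : (0 : ℝ) ≤ 2 * π * t := by positivity
  have h2 : (√(2 * π * t))⁻¹ * (√(2 * π * t))⁻¹ = (2 * π * t)⁻¹ := by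
    rw [← mul_inv, Real.mul_self_sqrt h1]
  have h3 : Real.exp (-(a ^ 2 + b ^ 2) / (2 * t)) =
      Real.exp (-(a - 0) ^ 2 / (2 * t)) * Real.exp (-(b - 0) ^ 2 / (2 * t)) := by
    rw [← Real.exp_add]
    congr 1
    ring
  rw [h3, ← h2]
  ring

lemma lint2 {t : ℝ≥0} (ht : 0 < t) {F : ℝ × ℝ → ℝ≥0∞} (hF : Measurable F) :
    ∫⁻ b, ∫⁻ c, F (b, c) ∂(gaussianReal 0 t) ∂(gaussianReal 0 t) =
      ∫⁻ p : ℝ × ℝ, ENNReal.ofReal ((2 * π * t)⁻¹ * Real.exp (-(p.1 ^ 2 + p.2 ^ 2) / (2 * t))) *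
        F p := by
  have h1 : ∀ b, ∫⁻ c, F (b, c) ∂(gaussianReal 0 t) = ∫⁻ c, gaussianPDF 0 t c * F (b, c) :=
    fun b => lint_gauss ht (by fun_prop)
  simp only [h1]
  have hg := measurable_gaussianPDF 0 t
  rw [lint_gauss ht (Measurable.lintegral_prod_right' (f := fun p : ℝ × ℝ => gaussianPDF 0 t p.2 * F p)
    (by fun_prop)), Measure.volume_eq_prod, lintegral_prod _ (by fun_prop)]
  refine lintegral_congr fun b => ?_
  rw [← lintegral_const_mul _ (by fun_prop)]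
  refine lintegral_congr fun c => ?_
  rw [← mul_assoc, pdf_mul ht]

lemma rotC (H K : ℝ → ℝ≥0∞) (z : ℂ) :
    ∫⁻ w : ℂ, H ‖w‖ * K ‖z + w‖ = ∫⁻ w : ℂ, H ‖w‖ * K ‖(‖z‖ : ℂ) + w‖ := by
  obtain ⟨u, hu⟩ : ∃ u : Circle, z = u * ‖z‖ :=
    ⟨Circle.exp z.arg, by rw [Circle.coe_exp, mul_comm, Complex.norm_mul_exp_arg_mul_I]⟩
  have h := (rotation u).measurePreserving.lintegral_comp_emb
    (rotation u).toHomeomorph.measurableEmbedding (fun w => H ‖w‖ * K ‖z + w‖)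
  rw [← h]
  refine lintegral_congr fun w => ?_
  have h1 : ‖rotation u w‖ = ‖w‖ := (rotation u).norm_map w
  have h2 : ‖z + rotation u w‖ = ‖(‖z‖ : ℂ) + w‖ := by
    rw [rotation_apply]
    conv_lhs => rw [hu]
    rw [← mul_add, norm_mul, Circle.norm_coe, one_mul]
  rw [h1, h2]

lemma toC {t : ℝ≥0} (ht : 0 < t) {ψ : ℝ → ℝ≥0∞} (hψ : Measurable ψ) (x y : ℝ) :
    ∫⁻ b, ∫⁻ c, ψ ((x + b) ^ 2 + (y + c) ^ 2) ∂(gaussianReal 0 t) ∂(gaussianReal 0 t) =
      ∫⁻ w : ℂ, (fun s : ℝ => ENNReal.ofReal ((2 * π * t)⁻¹ * Real.exp (-(s ^ 2) / (2 * t)))) ‖w‖ *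
        (fun s : ℝ => ψ (s ^ 2)) ‖(⟨x, y⟩ : ℂ) + w‖ := by
  rw [lint2 ht (F := fun p : ℝ × ℝ => ψ ((x + p.1) ^ 2 + (y + p.2) ^ 2)) (by fun_prop)]
  rw [← Complex.volume_preserving_equiv_real_prod.lintegral_comp (by fun_prop)]
  refine lintegral_congr fun w => ?_
  simp only [Complex.measurableEquivRealProd_apply, Complex.sq_norm, Complex.normSq_apply,
    Complex.add_re, Complex.add_im]
  congr 1
  · congr 4
    ring
  · congr 1
    ring

lemma rot2 {t : ℝ≥0} (ht : 0 < t) {ψ : ℝ → ℝ≥0∞} (hψ : Measurable ψ) (x y : ℝ) :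
    ∫⁻ b, ∫⁻ c, ψ ((x + b) ^ 2 + (y + c) ^ 2) ∂(gaussianReal 0 t) ∂(gaussianReal 0 t) =
      ∫⁻ b, ∫⁻ c, ψ ((√(x ^ 2 + y ^ 2) + b) ^ 2 + c ^ 2) ∂(gaussianReal 0 t) ∂(gaussianReal 0 t) := by
  have h0 := toC ht hψ (√(x ^ 2 + y ^ 2)) 0
  have h2 : ∫⁻ b, ∫⁻ c, ψ ((√(x ^ 2 + y ^ 2) + b) ^ 2 + c ^ 2) ∂(gaussianReal 0 t)
      ∂(gaussianReal 0 t) = ∫⁻ b, ∫⁻ c, ψ ((√(x ^ 2 + y ^ 2) + b) ^ 2 + (0 + c) ^ 2)
      ∂(gaussianReal 0 t) ∂(gaussianReal 0 t) := by simp only [zero_add]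
  rw [h2, h0, toC ht hψ x y]
  refine (rotC (fun s : ℝ => ENNReal.ofReal ((2 * π * t)⁻¹ * Real.exp (-(s ^ 2) / (2 * t))))
    (fun s : ℝ => ψ (s ^ 2)) ⟨x, y⟩).trans ?_
  have h1 : ((‖(⟨x, y⟩ : ℂ)‖ : ℝ) : ℂ) = (⟨√(x ^ 2 + y ^ 2), 0⟩ : ℂ) := by
    apply Complex.ext
    · rw [Complex.ofReal_re, Complex.norm_def, Complex.normSq_apply]
      congr 1
      ring
    · simp
  rw [h1]

lemma polar2 {t : ℝ≥0} (ht : 0 < t) {ψ : ℝ → ℝ≥0∞} (hψ : Measurable ψ) :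
    ∫⁻ b, ∫⁻ c, ψ (b ^ 2 + c ^ 2) ∂(gaussianReal 0 t) ∂(gaussianReal 0 t) =
      ∫⁻ ρ in Ioi 0, ENNReal.ofReal (ρ / t * Real.exp (-ρ ^ 2 / (2 * t))) * ψ (ρ ^ 2) := by
  have ht' : (0 : ℝ) < t := by exact_mod_cast ht
  rw [lint2 ht (F := fun p : ℝ × ℝ => ψ (p.1 ^ 2 + p.2 ^ 2)) (by fun_prop),
    ← lintegral_comp_polarCoord_symm, polarCoord_target]
  have h1 : ∀ p : ℝ × ℝ, (polarCoord.symm p).1 ^ 2 + (polarCoord.symm p).2 ^ 2 = p.1 ^ 2 := by
    intro p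
    simp only [polarCoord_symm_apply]
    nlinarith [Real.sin_sq_add_cos_sq p.2]
  simp only [h1]
  rw [Measure.volume_eq_prod, ← Measure.prod_restrict, lintegral_prod _ (by fun_prop)]
  refine setLIntegral_congr_fun measurableSet_Ioi fun ρ hρ => ?_
  have hρ' : 0 < ρ := hρ
  simp only [lintegral_const, Measure.restrict_apply MeasurableSet.univ, univ_inter,
    Real.volume_Ioo, smul_eq_mul]
  rw [mul_comm, ← mul_assoc, ← mul_assoc, ← ENNReal.ofReal_mul (by linarith [Real.pi_pos]),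
    ← ENNReal.ofReal_mul (by nlinarith [Real.pi_pos])]
  congr 2
  have := Real.pi_pos
  field_simp
  ring

/-- substitution -/
lemma subst1 {t : ℝ≥0} (ht : 0 < t) {φ : ℝ → ℝ≥0∞} (A : ℝ) :
    ∫⁻ ρ in Ioi 0, ENNReal.ofReal (ρ / t * Real.exp (-ρ ^ 2 / (2 * t))) * φ (√(A ^ 2 + ρ ^ 2)) =
      ∫⁻ y in Ioi |A|, ENNReal.ofReal (y / t * Real.exp (-(y ^ 2 - A ^ 2) / (2 * t))) * φ y := by
  have ht' : (0 : ℝ) < t := by exact_mod_cast ht
  have himg : (fun ρ : ℝ => √(A ^ 2 + ρ ^ 2)) '' Ioi 0 = Ioi |A| := by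
    ext y
    simp only [mem_image, mem_Ioi]
    constructor
    · rintro ⟨ρ, hρ, rfl⟩
      rw [← Real.sqrt_sq_eq_abs]
      exact Real.sqrt_lt_sqrt (sq_nonneg _) (by nlinarith)
    · intro hy
      have hy0 : 0 < y := lt_of_le_of_lt (abs_nonneg _) hy
      have h1 : A ^ 2 < y ^ 2 := by
        rw [← sq_abs A]
        nlinarith [abs_nonneg A]
      refine ⟨√(y ^ 2 - A ^ 2), Real.sqrt_pos.2 (by linarith), ?_⟩
      rw [Real.sq_sqrt (by linarith)]
      rw [show A ^ 2 + (y ^ 2 - A ^ 2) = y ^ 2 by ring, Real.sqrt_sq hy0.le]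
  have hinj : InjOn (fun ρ : ℝ => √(A ^ 2 + ρ ^ 2)) (Ioi 0) := by
    intro a ha b hb hab
    have ha' : 0 < a := ha
    have hb' : 0 < b := hb
    have h1 := (Real.sqrt_inj (by positivity) (by positivity)).1 hab
    have h2 : a ^ 2 = b ^ 2 := by linarith
    exact (pow_left_inj₀ ha'.le hb'.le (by norm_num)).1 h2
  have hder : ∀ ρ ∈ Ioi (0 : ℝ), HasDerivWithinAt (fun ρ : ℝ => √(A ^ 2 + ρ ^ 2))
      (ρ / √(A ^ 2 + ρ ^ 2)) (Ioi 0) ρ := by
    intro ρ hρ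
    have hρ' : 0 < ρ := hρ
    have h1 : HasDerivAt (fun ρ : ℝ => A ^ 2 + ρ ^ 2) (2 * ρ) ρ := by
      simpa using ((hasDerivAt_pow 2 ρ).const_add (A ^ 2))
    have h2 := h1.sqrt (by positivity)
    have h3 : ρ / √(A ^ 2 + ρ ^ 2) = 2 * ρ / (2 * √(A ^ 2 + ρ ^ 2)) := by
      rw [mul_div_mul_left _ _ two_ne_zero]
    rw [h3]
    exact h2.hasDerivWithinAt
  rw [← himg, lintegral_image_eq_lintegral_abs_deriv_mul measurableSet_Ioi hder hinj]
  refine setLIntegral_congr_fun measurableSet_Ioi fun ρ hρ => ?_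
  have hρ' : 0 < ρ := hρ
  have hs : 0 < √(A ^ 2 + ρ ^ 2) := Real.sqrt_pos.2 (by positivity)
  rw [← mul_assoc, ← ENNReal.ofReal_mul (abs_nonneg _), abs_of_pos (div_pos hρ' hs),
    Real.sq_sqrt (by positivity)]
  congr 2
  rw [show A ^ 2 + ρ ^ 2 - A ^ 2 = ρ ^ 2 by ring]
  field_simp

/-- the radial density -/
lemma main3 {t : ℝ≥0} (ht : 0 < t) {φ : ℝ → ℝ≥0∞} (hφ : Measurable φ) (r : ℝ) :
    ∫⁻ a, ∫⁻ b, ∫⁻ c, φ (√((r + a) ^ 2 + b ^ 2 + c ^ 2))
      ∂(gaussianReal 0 t) ∂(gaussianReal 0 t) ∂(gaussianReal 0 t) =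
    ∫⁻ y in Ioi 0, ENNReal.ofReal ((√(2 * π * t))⁻¹ * (y / t) *
      Real.exp (-(y ^ 2 + r ^ 2) / (2 * t)) * ∫ A in (-y)..y, Real.exp (r / t * A)) * φ y := by
  have ht' : (0 : ℝ) < t := by exact_mod_cast ht
  have hg := measurable_gaussianPDF 0 t
  -- the inner integrals
  have h1 : ∀ a : ℝ, ∫⁻ b, ∫⁻ c, φ (√((r + a) ^ 2 + b ^ 2 + c ^ 2))
      ∂(gaussianReal 0 t) ∂(gaussianReal 0 t) =
      ∫⁻ y in Ioi |r + a|, ENNReal.ofReal (y / t * Real.exp (-(y ^ 2 - (r + a) ^ 2) / (2 * t))) *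
        φ y := by
    intro a
    rw [← subst1 ht, ← polar2 ht (ψ := fun u => φ (√((r + a) ^ 2 + u))) (by fun_prop)]
    simp only [add_assoc]
  have h2 : ∫⁻ a, ∫⁻ b, ∫⁻ c, φ (√((r + a) ^ 2 + b ^ 2 + c ^ 2))
      ∂(gaussianReal 0 t) ∂(gaussianReal 0 t) ∂(gaussianReal 0 t) =
      ∫⁻ a, gaussianPDF 0 t a * ∫⁻ b, ∫⁻ c, φ (√((r + a) ^ 2 + b ^ 2 + c ^ 2))
      ∂(gaussianReal 0 t) ∂(gaussianReal 0 t) := by
    rw [lint_gauss ht]
    refine Measurable.lintegral_prod_right' (f := fun p : ℝ × ℝ =>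
      ∫⁻ c, φ (√((r + p.1) ^ 2 + p.2 ^ 2 + c ^ 2)) ∂(gaussianReal 0 t)) ?_
    exact Measurable.lintegral_prod_right' (f := fun p : (ℝ × ℝ) × ℝ =>
      φ (√((r + p.1.1) ^ 2 + p.1.2 ^ 2 + p.2 ^ 2))) (by fun_prop)
  rw [h2]
  simp only [h1]
  -- the kernel
  set K : ℝ → ℝ → ℝ≥0∞ := fun A y => {p : ℝ × ℝ | |p.1| < p.2}.indicator
    (fun p => ENNReal.ofReal ((√(2 * π * t))⁻¹ * (p.2 / t) *
      Real.exp (-(p.2 ^ 2 + r ^ 2) / (2 * t)) * Real.exp (r / t * p.1)) * φ p.2) (A, y) with hK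
  have hms : MeasurableSet {p : ℝ × ℝ | |p.1| < p.2} :=
    measurableSet_lt (by fun_prop) (by fun_prop)
  have hKm : Measurable (Function.uncurry K) := by
    have : Function.uncurry K = {p : ℝ × ℝ | |p.1| < p.2}.indicator
      (fun p => ENNReal.ofReal ((√(2 * π * t))⁻¹ * (p.2 / t) *
      Real.exp (-(p.2 ^ 2 + r ^ 2) / (2 * t)) * Real.exp (r / t * p.1)) * φ p.2) := by
      ext ⟨A, y⟩
      rfl
    rw [this]
    exact Measurable.indicator (by fun_prop) hms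
  have h3 : ∀ a : ℝ, gaussianPDF 0 t a * ∫⁻ y in Ioi |r + a|,
      ENNReal.ofReal (y / t * Real.exp (-(y ^ 2 - (r + a) ^ 2) / (2 * t))) * φ y =
      ∫⁻ y, K (r + a) y := by
    intro a
    rw [← lintegral_const_mul _ (by fun_prop), ← lintegral_indicator measurableSet_Ioi]
    refine lintegral_congr fun y => ?_
    by_cases hy : |r + a| < y
    · have hy0 : 0 < y := lt_of_le_of_lt (abs_nonneg _) hy
      rw [indicator_of_mem (show y ∈ Ioi |r + a| from hy), hK]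
      simp only
      rw [indicator_of_mem (show (r + a, y) ∈ {p : ℝ × ℝ | |p.1| < p.2} from hy), ← mul_assoc]
      unfold gaussianPDF gaussianPDFReal
      rw [← ENNReal.ofReal_mul (by positivity)]
      congr 2
      have e : Real.exp (-(a - 0) ^ 2 / (2 * t)) * Real.exp (-(y ^ 2 - (r + a) ^ 2) / (2 * t)) =
          Real.exp (-(y ^ 2 + r ^ 2) / (2 * t)) * Real.exp (r / t * (r + a)) := by
        rw [← Real.exp_add, ← Real.exp_add]
        congr 1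
        field_simp
        ring
      calc _ = (√(2 * π * t))⁻¹ * (y / t) * (Real.exp (-(a - 0) ^ 2 / (2 * t)) *
            Real.exp (-(y ^ 2 - (r + a) ^ 2) / (2 * t))) := by ring
        _ = _ := by rw [e]; ring
    · rw [indicator_of_notMem (show y ∉ Ioi |r + a| from hy), hK]
      simp only
      rw [indicator_of_notMem (show (r + a, y) ∉ {p : ℝ × ℝ | |p.1| < p.2} from hy)]
  simp only [h3]
  rw [lintegral_add_left_eq_self (μ := (volume : Measure ℝ)) (fun a => ∫⁻ y, K a y) r]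
  rw [lintegral_lintegral_swap hKm.aemeasurable, ← lintegral_indicator measurableSet_Ioi]
  refine lintegral_congr fun y => ?_
  by_cases hy : 0 < y
  · rw [indicator_of_mem (show y ∈ Ioi 0 from hy)]
    have h4 : ∀ A, K A y = (Ioo (-y) y).indicator (fun A => ENNReal.ofReal ((√(2 * π * t))⁻¹ * (y / t) *
      Real.exp (-(y ^ 2 + r ^ 2) / (2 * t)) * Real.exp (r / t * A)) * φ y) A := by
      intro A
      by_cases hA : |A| < y
      · rw [hK]
        simp only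
        rw [indicator_of_mem (show (A, y) ∈ {p : ℝ × ℝ | |p.1| < p.2} from hA),
          indicator_of_mem (show A ∈ Ioo (-y) y from abs_lt.1 hA)]
      · rw [hK]
        simp only
        rw [indicator_of_notMem (show (A, y) ∉ {p : ℝ × ℝ | |p.1| < p.2} from hA),
          indicator_of_notMem (show A ∉ Ioo (-y) y from fun h => hA (abs_lt.2 h))]
    simp only [h4]
    rw [lintegral_indicator measurableSet_Ioo, lintegral_mul_const _ (by fun_prop)]
    congr 1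
    have hint : IntegrableOn (fun A => (√(2 * π * t))⁻¹ * (y / t) *
      Real.exp (-(y ^ 2 + r ^ 2) / (2 * t)) * Real.exp (r / t * A)) (Ioo (-y) y) :=
      (Continuous.integrableOn_Icc (by fun_prop)).mono_set Ioo_subset_Icc_self
    rw [← ofReal_integral_eq_lintegral_ofReal hint (ae_of_all _ fun A => by positivity),
      integral_const_mul, intervalIntegral.integral_of_le (by linarith), integral_Ioc_eq_integral_Ioo]
  · rw [indicator_of_notMem (show y ∉ Ioi 0 from hy)]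
    have h4 : ∀ A, K A y = 0 := by
      intro A
      rw [hK]
      simp only
      rw [indicator_of_notMem]
      intro h
      exact hy (lt_of_le_of_lt (abs_nonneg _) h)
    simp [h4]

theorem t_RAD : S_RAD := by
  intro t φ ht hφ
  have ht' : (0 : ℝ) < t := by exact_mod_cast ht
  constructor
  · intro z₁ z₂ z₃ hz
    set r := √(z₁ ^ 2 + z₂ ^ 2 + z₃ ^ 2) with hr
    -- first rotation
    have h1 : ∀ a : ℝ, ∫⁻ b, ∫⁻ c, φ (√((z₁ + a) ^ 2 + (z₂ + b) ^ 2 + (z₃ + c) ^ 2))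
        ∂(gaussianReal 0 t) ∂(gaussianReal 0 t) =
        ∫⁻ b, ∫⁻ c, φ (√((z₁ + a) ^ 2 + (√(z₂ ^ 2 + z₃ ^ 2) + b) ^ 2 + c ^ 2))
        ∂(gaussianReal 0 t) ∂(gaussianReal 0 t) := by
      intro a
      have := rot2 ht (ψ := fun u => φ (√((z₁ + a) ^ 2 + u))) (by fun_prop) z₂ z₃
      simpa only [add_assoc] using this
    simp only [h1]
    -- swap
    have hm : ∀ x y : ℝ, Measurable (fun p : (ℝ × ℝ) × ℝ =>
        φ (√((x + p.1.1) ^ 2 + (y + p.1.2) ^ 2 + p.2 ^ 2))) := fun x y => by fun_prop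
    have hsw : ∀ x y : ℝ, ∫⁻ a, ∫⁻ b, ∫⁻ c, φ (√((x + a) ^ 2 + (y + b) ^ 2 + c ^ 2))
        ∂(gaussianReal 0 t) ∂(gaussianReal 0 t) ∂(gaussianReal 0 t) =
        ∫⁻ c, ∫⁻ a, ∫⁻ b, φ (√((x + a) ^ 2 + (y + b) ^ 2 + c ^ 2))
        ∂(gaussianReal 0 t) ∂(gaussianReal 0 t) ∂(gaussianReal 0 t) := by
      intro x y
      have e1 : ∀ a : ℝ, ∫⁻ b, ∫⁻ c, φ (√((x + a) ^ 2 + (y + b) ^ 2 + c ^ 2))
          ∂(gaussianReal 0 t) ∂(gaussianReal 0 t) =
          ∫⁻ c, ∫⁻ b, φ (√((x + a) ^ 2 + (y + b) ^ 2 + c ^ 2))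
          ∂(gaussianReal 0 t) ∂(gaussianReal 0 t) := by
        intro a
        exact lintegral_lintegral_swap (by fun_prop)
      simp only [e1]
      refine lintegral_lintegral_swap (f := fun a c => ∫⁻ b,
        φ (√((x + a) ^ 2 + (y + b) ^ 2 + c ^ 2)) ∂(gaussianReal 0 t)) ?_
      apply Measurable.aemeasurable
      exact Measurable.lintegral_prod_right' (f := fun p : (ℝ × ℝ) × ℝ =>
        φ (√((x + p.1.1) ^ 2 + (y + p.2) ^ 2 + p.1.2 ^ 2))) (by fun_prop)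
    rw [hsw]
    have h2 : ∀ c : ℝ, ∫⁻ a, ∫⁻ b, φ (√((z₁ + a) ^ 2 + (√(z₂ ^ 2 + z₃ ^ 2) + b) ^ 2 + c ^ 2))
        ∂(gaussianReal 0 t) ∂(gaussianReal 0 t) =
        ∫⁻ a, ∫⁻ b, φ (√((r + a) ^ 2 + (0 + b) ^ 2 + c ^ 2))
        ∂(gaussianReal 0 t) ∂(gaussianReal 0 t) := by
      intro c
      have := rot2 ht (ψ := fun u => φ (√(u + c ^ 2))) (by fun_prop) z₁ (√(z₂ ^ 2 + z₃ ^ 2))
      rw [Real.sq_sqrt (by positivity), ← add_assoc, ← hr] at this
      simpa only [zero_add] using this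
    simp only [h2]
    rw [← hsw]
    simp only [zero_add]
    rw [main3 ht hφ r]
    unfold KQ
    rw [← lintegral_const_mul _ (by unfold hk; fun_prop)]
    refine setLIntegral_congr_fun measurableSet_Ioi fun y hy => ?_
    have hy' : 0 < y := hy
    simp only
    have hr0 : r / t ≠ 0 := by positivity
    have hI : ∫ A in (-y)..y, Real.exp (r / t * A) =
        (t / r) * (Real.exp (r / t * y) - Real.exp (r / t * (-y))) := by
      rw [intervalIntegral.integral_comp_mul_left (fun x => Real.exp x) hr0, integral_exp, smul_eq_mul]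
      congr 1
      field_simp
    have hk0 : r⁻¹ * hk t r y * y = (√(2 * π * t))⁻¹ * (y / t) *
      Real.exp (-(y ^ 2 + r ^ 2) / (2 * t)) * ∫ A in (-y)..y, Real.exp (r / t * A) := by
      rw [hI]
      unfold hk
      have e1 : Real.exp (-(y - r) ^ 2 / (2 * t)) = Real.exp (-(y ^ 2 + r ^ 2) / (2 * t)) *
          Real.exp (r / t * y) := by
        rw [← Real.exp_add]
        congr 1
        field_simp
        ring
      have e2 : Real.exp (-(y + r) ^ 2 / (2 * t)) = Real.exp (-(y ^ 2 + r ^ 2) / (2 * t)) *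
          Real.exp (r / t * (-y)) := by
        rw [← Real.exp_add]
        congr 1
        field_simp
        ring
      rw [e1, e2]
      field_simp
    have hknn : 0 ≤ hk t r y := by
      unfold hk
      apply mul_nonneg (by positivity)
      rw [sub_nonneg]
      apply Real.exp_le_exp.2
      apply div_le_div_of_nonneg_right _ (by positivity)
      nlinarith
    rw [← hk0, ENNReal.ofReal_mul (by positivity), ENNReal.ofReal_mul (by positivity)]
    ring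
  · have h0 := main3 ht hφ 0
    simp only [zero_add] at h0
    rw [h0]
    refine setLIntegral_congr_fun measurableSet_Ioi fun y hy => ?_
    have hy' : 0 < y := hy
    congr 2
    simp only [zero_div, zero_mul, Real.exp_zero, intervalIntegral.integral_const, smul_eq_mul,
      mul_one]
    unfold ent
    have e1 : (t : ℝ) ^ (-(3 / 2) : ℝ) = (t : ℝ)⁻¹ * (√t)⁻¹ := by
      rw [Real.sqrt_eq_rpow, ← Real.rpow_neg_one, ← Real.rpow_neg ht'.le, ← Real.rpow_add ht']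
      norm_num
    have e2 : √(2 * π * t) = √(2 * π) * √t := Real.sqrt_mul (by positivity) _
    have e3 : √(2 / π) = 2 * (√(2 * π))⁻¹ := by
      rw [Real.sqrt_div (by norm_num), Real.sqrt_mul (by norm_num)]
      have : √2 * √2 = 2 := Real.mul_self_sqrt (by norm_num)
      have h2 : 0 < √2 := by positivity
      have h3 : 0 < √π := by positivity
      field_simp
      nlinarith
    rw [e1, e2, e3, mul_inv]
    have : -(y ^ 2 + 0 ^ 2) / (2 * (t : ℝ)) = -y ^ 2 / (2 * t) := by ring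
    rw [this]
    ring

end Pool.Agent.R734.BW
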