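import Pool.Agent.R734.Heintze

/-!
# Lie algebras of Heintze groups of Carnot type, and their left invariant metrics
-/

set_option autoImplicit false

namespace Pool.Agent.R734.Heintze

open Module

/-- `g = ℝ A ⊕ V 1 ⊕ ⋯ ⊕ V s` is the Lie algebra of a Heintze group of Carnot type: the layers
`V 1, …, V s` form a Carnot Lie algebra of step `s`, that is `[V 1, V i] = V (i + 1)` for `i < s`,
`[V 1, V s] = 0` and `V s ≠ 0`, and `ad A` acts on `V i` as multiplication by `i`. The layers with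
number above `s` are zero; `V 0` is the line `ℝ A`. -/
structure IsHeintzeCarnot {g : Type*} [LieRing g] [LieAlgebra ℝ g] (s : ℕ)
    (V : ℕ → Submodule ℝ g) (A : g) : Prop where
  one_le : 1 ≤ s
  A_ne : A ≠ 0
  zero_layer : V 0 = ℝ ∙ A
  internal : DirectSum.IsInternal V
  layer : ∀ i, 1 ≤ i → Submodule.span ℝ {z | ∃ x ∈ V 1, ∃ y ∈ V i, z = ⁅x, y⁆} = V (i + 1)
  top_ne : V s ≠ ⊥
  above : ∀ i, s < i → V i = ⊥
  weight : ∀ i, ∀ x ∈ V i, ⁅A, x⁆ = (i : ℝ) • x

section

variable {g : Type*} [LieRing g] [LieAlgebra ℝ g] {s : ℕ} {V : ℕ → Submodule ℝ g} {A : g}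

/-- The sum of the layers from `k` on. -/
def tail (V : ℕ → Submodule ℝ g) (k : ℕ) : Submodule ℝ g := ⨆ i : {i : ℕ // k ≤ i}, V i

theorem le_tail {k i : ℕ} (h : k ≤ i) : V i ≤ tail V k :=
  le_iSup (fun i : {i : ℕ // k ≤ i} => V i) ⟨i, h⟩

theorem tail_mono {k l : ℕ} (h : k ≤ l) : tail V l ≤ tail V k :=
  iSup_le fun i => le_tail (h.trans i.2)

theorem IsHeintzeCarnot.bracket (h : IsHeintzeCarnot s V A) : ∀ i, 1 ≤ i → ∀ j, 1 ≤ j →
    ∀ x ∈ V i, ∀ y ∈ V j, ⁅x, y⁆ ∈ V (i + j) := by
  intro i hi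
  induction i, hi using Nat.le_induction with
  | base =>
    intro j hj x hx y hy
    rw [add_comm, ← h.layer j hj]
    exact Submodule.subset_span ⟨x, hx, y, hy, rfl⟩
  | succ i hi ih =>
    intro j hj x hx y hy
    rw [← h.layer i hi] at hx
    induction hx using Submodule.span_induction with
    | mem x hx =>
      obtain ⟨a, ha, b, hb, rfl⟩ := hx
      rw [lie_lie]
      have e1 : i + 1 + j = (i + j) + 1 := by ring
      have e2 : i + 1 + j = i + (j + 1) := by ring
      have h1 : ∀ a ∈ V 1, ∀ k, 1 ≤ k → ∀ z ∈ V k, ⁅a, z⁆ ∈ V (k + 1) := by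
        intro a ha k hk z hz
        rw [← h.layer k hk]
        exact Submodule.subset_span ⟨a, ha, z, hz, rfl⟩
      refine sub_mem ?_ ?_
      · rw [e1]; exact h1 a ha _ (by omega) _ (ih j hj b hb y hy)
      · rw [e2]; exact ih (j + 1) (by omega) b hb _ (h1 a ha j hj y hy)
    | zero => simp
    | add x x' _ _ hx hx' => rw [add_lie]; exact add_mem hx hx'
    | smul c x _ hx => rw [smul_lie]; exact Submodule.smul_mem _ _ hx

theorem IsHeintzeCarnot.bracket_tail (h : IsHeintzeCarnot s V A) {i j : ℕ} (hi : 1 ≤ i)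
    (hj : 1 ≤ j) {x y : g} (hx : x ∈ tail V i) (hy : y ∈ tail V j) : ⁅x, y⁆ ∈ tail V (i + j) := by
  unfold tail at hx hy
  induction hx using Submodule.iSup_induction' with
  | mem k x hx =>
    induction hy using Submodule.iSup_induction' with
    | mem l y hy =>
      exact le_tail (by have := k.2; have := l.2; omega)
        (h.bracket k (by have := k.2; omega) l (by have := l.2; omega) x hx y hy)
    | zero => simp
    | add y y' _ _ hy hy' => rw [lie_add]; exact add_mem hy hy'
  | zero => simp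
  | add x x' _ _ hx hx' => rw [add_lie]; exact add_mem hx hx'

theorem IsHeintzeCarnot.ad_tail (h : IsHeintzeCarnot s V A) {k : ℕ} {x : g}
    (hx : x ∈ tail V k) : ⁅A, x⁆ ∈ tail V k := by
  unfold tail at hx
  induction hx using Submodule.iSup_induction' with
  | mem i x hx => rw [h.weight _ x hx]; exact Submodule.smul_mem _ _ (le_tail i.2 hx)
  | zero => simp
  | add x x' _ _ hx hx' => rw [lie_add]; exact add_mem hx hx'

/-- `ad A - 1` maps the nilradical into the second tail. -/
theorem IsHeintzeCarnot.ad_sub_tail (h : IsHeintzeCarnot s V A) {x : g}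
    (hx : x ∈ tail V 1) : ⁅A, x⁆ - x ∈ tail V 2 := by
  unfold tail at hx
  induction hx using Submodule.iSup_induction' with
  | mem i x hx =>
    rw [h.weight _ x hx]
    rcases Nat.lt_or_ge 1 i.1 with h1 | h1
    · exact sub_mem (Submodule.smul_mem _ _ (le_tail h1 hx)) (le_tail h1 hx)
    · have : (i : ℕ) = 1 := le_antisymm h1 i.2
      rw [this]; simp
  | zero => simp
  | add x x' _ _ hx hx' =>
    rw [lie_add, add_sub_add_comm]; exact add_mem hx hx'

theorem IsHeintzeCarnot.sup_tail (h : IsHeintzeCarnot s V A) : (ℝ ∙ A) ⊔ tail V 1 = ⊤ := by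
  rw [eq_top_iff, ← h.internal.submodule_iSup_eq_top]
  refine iSup_le fun i => ?_
  rcases Nat.eq_zero_or_pos i with rfl | hi
  · rw [h.zero_layer]; exact le_sup_left
  · exact (le_tail hi).trans le_sup_right

theorem IsHeintzeCarnot.disj (h : IsHeintzeCarnot s V A) {k i : ℕ} (hik : i < k) :
    Disjoint (V i) (tail V k) := by
  have h1 := h.internal.submodule_iSupIndep i
  refine h1.mono_right (iSup_le fun j => ?_)
  exact le_iSup₂_of_le (j : ℕ) (by have := j.2; omega) le_rfl

theorem IsHeintzeCarnot.one_ne (h : IsHeintzeCarnot s V A) : V 1 ≠ ⊥ := by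
  intro h1
  have : ∀ i, 1 ≤ i → V i = ⊥ := by
    intro i hi
    induction i, hi using Nat.le_induction with
    | base => exact h1
    | succ i hi ih =>
      rw [← h.layer i hi, Submodule.span_eq_bot]
      rintro z ⟨x, hx, y, hy, rfl⟩
      rw [h1, Submodule.mem_bot] at hx
      rw [hx]; simp
  exact h.top_ne (this s h.one_le)

theorem IsHeintzeCarnot.tail_above (h : IsHeintzeCarnot s V A) {k : ℕ} (hk : s < k) :
    tail V k = ⊥ := by
  rw [eq_bot_iff]
  exact iSup_le fun i => (h.above i (lt_of_lt_of_le hk i.2)).le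

theorem IsHeintzeCarnot.derived (h : IsHeintzeCarnot s V A) (x y : g) : ⁅x, y⁆ ∈ tail V 1 := by
  have hx : x ∈ (ℝ ∙ A) ⊔ tail V 1 := by rw [h.sup_tail]; trivial
  have hy : y ∈ (ℝ ∙ A) ⊔ tail V 1 := by rw [h.sup_tail]; trivial
  obtain ⟨a, ha, u, hu, rfl⟩ := Submodule.mem_sup.1 hx
  obtain ⟨b, hb, v, hv, rfl⟩ := Submodule.mem_sup.1 hy
  obtain ⟨α, rfl⟩ := Submodule.mem_span_singleton.1 ha
  obtain ⟨β, rfl⟩ := Submodule.mem_span_singleton.1 hb
  have e : ⁅α • A + u, β • A + v⁆ = α • ⁅A, v⁆ - β • ⁅A, u⁆ + ⁅u, v⁆ := by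
    simp only [add_lie, lie_add, smul_lie, lie_smul, lie_self, smul_zero, zero_add]
    rw [← lie_skew u A]; simp only [smul_neg]; abel
  rw [e]
  refine add_mem (sub_mem ?_ ?_) ?_
  · exact Submodule.smul_mem _ _ (h.ad_tail hv)
  · exact Submodule.smul_mem _ _ (h.ad_tail hu)
  · exact tail_mono (by norm_num) (h.bracket_tail le_rfl le_rfl hu hv)

variable [FiniteDimensional ℝ g]

/-- **Pinching of left invariant metrics on Heintze groups of Carnot type.** -/
theorem pinching (h : IsHeintzeCarnot s V A) (B : InvMetric g) {a b : ℝ}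
    (hK : B.SecIn a b) : a ≤ b * (s : ℝ) ^ 2 ∧ a < 0 := by
  set N := tail V 1 with hNdef
  have hN : ∀ x y : g, ⁅x, y⁆ ∈ N := h.derived
  have hAN : A ∉ N := by
    intro hA
    have h1 := (h.disj (k := 1) (i := 0) (by norm_num)).le_bot
      ⟨by rw [h.zero_layer]; exact Submodule.mem_span_singleton_self A, hA⟩
    exact h.A_ne h1
  -- the unit normal, up to scaling
  obtain ⟨ν, hν0, hν⟩ : ∃ ν : g, ν ≠ 0 ∧ ∀ x ∈ N, B.inner ν x = 0 := by
    have hlt : N < ⊤ := lt_top_iff_ne_top.2 fun e => hAN (e ▸ Submodule.mem_top)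
    obtain ⟨φ, hφ0, hφ⟩ := Submodule.exists_le_ker_of_lt_top N hlt
    refine ⟨(LinearMap.BilinForm.toDual B.inner B.nondeg).symm φ, ?_, fun x hx => ?_⟩
    · intro e
      rw [LinearEquiv.map_eq_zero_iff] at e
      exact hφ0 e
    · rw [LinearMap.BilinForm.apply_toDual_symm_apply]
      exact hφ hx
  have hνν := B.pos ν hν0
  have hdecomp : ∀ z : g, ∃ (α : ℝ) (x : g), x ∈ N ∧ z = α • A + x := by
    intro z
    have hz : z ∈ (ℝ ∙ A) ⊔ tail V 1 := by rw [h.sup_tail]; trivial
    obtain ⟨a', ha, u, hu, rfl⟩ := Submodule.mem_sup.1 hz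
    obtain ⟨α, rfl⟩ := Submodule.mem_span_singleton.1 ha
    exact ⟨α, u, hu, rfl⟩
  obtain ⟨c, x0, hx0, hνe⟩ := hdecomp ν
  have hc : c ≠ 0 := by
    rintro rfl
    rw [zero_smul, zero_add] at hνe
    have := hν ν (hνe ▸ hx0)
    exact hνν.ne' this
  have hNν : ∀ z, B.inner ν z = 0 → z ∈ N := by
    intro z hz
    obtain ⟨α, x, hx, rfl⟩ := hdecomp z
    have hA : A = c⁻¹ • (ν - x0) := by
      rw [hνe]; simp [hc]
    rw [hA] at hz ⊢
    have e : α • c⁻¹ • (ν - x0) + x = (α * c⁻¹) • ν + (x - (α * c⁻¹) • x0) := by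
      rw [smul_smul, smul_sub]; abel
    rw [e] at hz ⊢
    have h2 : x - (α * c⁻¹) • x0 ∈ N := sub_mem hx (Submodule.smul_mem _ _ hx0)
    rw [map_add, map_smul, hν _ h2, add_zero, smul_eq_mul] at hz
    have h3 : (α * c⁻¹) • ν = 0 := by rw [(mul_eq_zero.1 hz).resolve_right hνν.ne', zero_smul]
    rw [h3, zero_add]
    exact h2
  -- the endomorphism `ad ν` of `N`
  let D : N →ₗ[ℝ] N := ((LieAlgebra.ad ℝ g ν).domRestrict N).codRestrict N fun x => hN ν x
  have hD : ∀ x : N, ((D x : N) : g) = ⁅ν, (x : g)⁆ := fun x => rfl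
  -- the eigenvalue `c`
  obtain ⟨v, hv, hv0, hve⟩ : ∃ v ∈ N, v ≠ 0 ∧ ⁅ν, v⁆ = c • v := by
    by_contra hcon
    push Not at hcon
    have hinj : Function.Injective (D - c • (LinearMap.id : N →ₗ[ℝ] N) : N →ₗ[ℝ] N) := by
      rw [← LinearMap.ker_eq_bot, Submodule.eq_bot_iff]
      intro x hx
      by_contra hx0
      have h1 : ((D x : N) : g) = c • (x : g) := by
        have := LinearMap.mem_ker.1 hx
        simp only [LinearMap.sub_apply, LinearMap.smul_apply, LinearMap.id_apply] at this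
        rw [sub_eq_zero] at this
        rw [this]; rfl
      exact hcon x x.2 (fun e => hx0 (Subtype.ext e)) (by rw [← hD, h1])
    have hsurj := LinearMap.injective_iff_surjective.1 hinj
    obtain ⟨u, hu, hu0⟩ := (Submodule.ne_bot_iff _).1 h.one_ne
    obtain ⟨x, hx⟩ := hsurj ⟨u, le_tail le_rfl hu⟩
    have hx' : ⁅ν, (x : g)⁆ - c • (x : g) = u := by
      have := congrArg (Subtype.val) hx
      simpa [hD] using this
    have h2 : ⁅ν, (x : g)⁆ - c • (x : g) ∈ tail V 2 := by
      rw [hνe, add_lie, smul_lie]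
      have e : c • ⁅A, (x : g)⁆ + ⁅x0, (x : g)⁆ - c • (x : g) =
          c • (⁅A, (x : g)⁆ - (x : g)) + ⁅x0, (x : g)⁆ := by rw [smul_sub]; abel
      rw [e]
      exact add_mem (Submodule.smul_mem _ _ (h.ad_sub_tail x.2))
        (h.bracket_tail le_rfl le_rfl hx0 x.2)
    rw [hx'] at h2
    exact hu0 ((h.disj (k := 2) (i := 1) (by norm_num)).le_bot ⟨hu, h2⟩)
  -- the eigenvalue `c s` of the transpose
  obtain ⟨w, hw, hw0, hwe⟩ : ∃ w ∈ N, w ≠ 0 ∧ ∀ x ∈ N, B.inner w ⁅ν, x⁆ = (c * s) * B.inner w x := by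
    by_contra hcon
    push Not at hcon
    obtain ⟨u, hu, hu0⟩ := (Submodule.ne_bot_iff _).1 h.top_ne
    have huN : u ∈ N := le_tail h.one_le hu
    let φ : N →ₗ[ℝ] N := D - (c * s) • LinearMap.id
    have hφ : ∀ x : N, ((φ x : N) : g) = ⁅ν, (x : g)⁆ - (c * s) • (x : g) := fun x => rfl
    -- `φ` is not injective, so not surjective
    have hninj : ¬ Function.Injective φ := by
      intro hinj
      have h1 : φ ⟨u, huN⟩ = 0 := by
        apply Subtype.ext
        rw [hφ]
        have h2 : ⁅x0, u⁆ = 0 := by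
          have := h.bracket_tail (i := 1) (j := s) le_rfl h.one_le hx0 (le_tail le_rfl hu)
          rw [h.tail_above (by omega)] at this
          exact this
        simp only [hνe, add_lie, smul_lie, h.weight s u hu, h2, smul_smul, add_zero]
        simp
      have h3 := hinj (h1.trans (map_zero φ).symm)
      exact hu0 (congrArg Subtype.val h3)
    have hnsurj : ¬ Function.Surjective φ := fun hs => hninj (LinearMap.injective_iff_surjective.2 hs)
    have hlt : LinearMap.range φ < ⊤ := lt_top_iff_ne_top.2 fun e => hnsurj (LinearMap.range_eq_top.1 e)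
    obtain ⟨ψ, hψ0, hψ⟩ := Submodule.exists_le_ker_of_lt_top _ hlt
    -- represent `ψ` by a vector of `N`
    let BN : LinearMap.BilinForm ℝ N := B.inner.restrict N
    have hBN : BN.Nondegenerate := by
      constructor
      · intro x hx
        by_contra hne
        exact (B.pos x (fun e => hne (Subtype.ext e))).ne' (hx x)
      · intro x hx
        by_contra hne
        exact (B.pos x (fun e => hne (Subtype.ext e))).ne' (hx x)
    let w : N := (LinearMap.BilinForm.toDual BN hBN).symm ψ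
    have hw : ∀ x : N, B.inner (w : g) (x : g) = ψ x := fun x => by
      have := LinearMap.BilinForm.apply_toDual_symm_apply (hB := hBN) ψ x
      exact this
    have hwne : (w : g) ≠ 0 := by
      intro e
      apply hψ0
      ext x
      rw [← hw x, e]; simp
    obtain ⟨x, hx, hxne⟩ := hcon w w.2 hwne
    apply hxne
    have h4 : ψ (φ ⟨x, hx⟩) = 0 := hψ (LinearMap.mem_range_self φ _)
    rw [← hw, hφ] at h4
    simp only [map_sub, map_smul, smul_eq_mul] at h4
    linarith
  -- the two planes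
  have hlin : ∀ z ∈ N, z ≠ 0 → LinearIndependent ℝ ![z, ν] := by
    intro z hz hz0
    rw [LinearIndependent.pair_iff]
    intro p q hpq
    have h1 := congrArg (B.inner ν) hpq
    rw [map_add, map_smul, map_smul, hν z hz, map_zero, smul_zero, zero_add, smul_eq_mul] at h1
    have hq : q = 0 := (mul_eq_zero.1 h1).resolve_right hνν.ne'
    subst hq
    rw [zero_smul, add_zero, smul_eq_zero] at hpq
    exact ⟨hpq.resolve_right hz0, rfl⟩
  have hden : ∀ z ∈ N, B.inner z z * B.inner ν ν - B.inner z ν ^ 2 = B.inner z z * B.inner ν ν := by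
    intro z hz
    rw [B.symm z ν, hν z hz]; ring
  have hv1 := (hK v ν (hlin v hv hv0)).2
  have hw1 := (hK w ν (hlin w hw hw0)).1
  have hvv := B.pos v hv0
  have hww := B.pos w hw0
  have hv2 := B.curv_eigen N ν hν hN v hv c hve
  have hw2 := B.curv_coeigen N ν hν hN hNν w hw (c * s) hwe
  unfold InvMetric.sec at hv1 hw1
  rw [hden v hv] at hv1
  rw [hden w hw] at hw1
  rw [div_le_iff₀ (by positivity)] at hv1
  rw [le_div_iff₀ (by positivity)] at hw1
  have hb : - c ^ 2 ≤ b * B.inner ν ν := by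
    have : (- c ^ 2) * B.inner v v ≤ (b * B.inner ν ν) * B.inner v v := by nlinarith
    exact le_of_mul_le_mul_right this hvv
  have ha : a * B.inner ν ν ≤ - (c * s) ^ 2 := by
    have : (a * B.inner ν ν) * B.inner w w ≤ (- (c * s) ^ 2) * B.inner w w := by nlinarith
    exact le_of_mul_le_mul_right this hww
  have hs : (1 : ℝ) ≤ s := by exact_mod_cast h.one_le
  constructor
  · have : a * B.inner ν ν ≤ (b * (s : ℝ) ^ 2) * B.inner ν ν := by
      have h1 : (- c ^ 2) * (s : ℝ) ^ 2 ≤ b * B.inner ν ν * (s : ℝ) ^ 2 :=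
        mul_le_mul_of_nonneg_right hb (by positivity)
      nlinarith
    exact le_of_mul_le_mul_right this hνν
  · have h2 : 0 < (c * s) ^ 2 := by
      have : c * s ≠ 0 := mul_ne_zero hc (by positivity)
      positivity
    by_contra hge
    push Not at hge
    nlinarith

end

end Pool.Agent.R734.Heintze
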