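import Pool.Agent.R734.FinslerDefs

/-!
# Calculus of Minkowski norms
-/

set_option autoImplicit false

open scoped ContDiff Topology
open Filter

namespace Pool.Agent.R734.Finsler

variable {E : Type*} [NormedAddCommGroup E] [NormedSpace ℝ E] {F : E → ℝ}

theorem IsMinkowski.sq_contDiffAt (hF : IsMinkowski F) {y : E} (hy : y ≠ 0) :
    ContDiffAt ℝ ∞ (fun x => F x ^ 2) y :=
  (hF.smooth.contDiffAt (isOpen_compl_singleton.mem_nhds hy)).pow 2

/-- Second derivative of `F ^ 2`. -/
noncomputable def D2 (F : E → ℝ) (y : E) : E →L[ℝ] E →L[ℝ] ℝ :=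
  fderiv ℝ (fderiv ℝ (fun x => F x ^ 2)) y

theorem IsMinkowski.fund_eq (hF : IsMinkowski F) {y : E} (hy : y ≠ 0) (u v : E) :
    fund F y u v = (1 / 2) * D2 F y u v := by
  unfold fund D2
  congr 1
  have hG := hF.sq_contDiffAt hy
  have h1 : (fun s : ℝ => deriv (fun t : ℝ => F (y + s • u + t • v) ^ 2) 0) =ᶠ[𝓝 0]
      fun s : ℝ => (fderiv ℝ (fun x => F x ^ 2) (y + s • u)) v := by
    have hc : Tendsto (fun s : ℝ => y + s • u) (𝓝 0) (𝓝 y) := by
      have : Continuous fun s : ℝ => y + s • u := by fun_prop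
      simpa using this.tendsto 0
    filter_upwards [hc.eventually (isOpen_ne.mem_nhds hy)] with s hs
    exact ((hF.sq_contDiffAt hs).differentiableAt (by simp)).lineDeriv_eq_fderiv
  rw [h1.deriv_eq]
  have h2 : DifferentiableAt ℝ (fderiv ℝ (fun x => F x ^ 2)) y :=
    (hG.fderiv_right (m := 1) (by norm_cast)).differentiableAt (by simp)
  have h3 : DifferentiableAt ℝ (fun x => (fderiv ℝ (fun x => F x ^ 2) x) v) y :=
    h2.clm_apply (differentiableAt_const v)
  have h4 := h3.lineDeriv_eq_fderiv (v := u)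
  rw [lineDeriv] at h4
  rw [h4]
  rw [fderiv_clm_apply h2 (differentiableAt_const v)]
  simp

theorem IsMinkowski.fund_symm (hF : IsMinkowski F) {y : E} (hy : y ≠ 0) (u v : E) :
    fund F y u v = fund F y v u := by
  rw [hF.fund_eq hy, hF.fund_eq hy]
  have h := (hF.sq_contDiffAt hy).isSymmSndFDerivAt
    (by simp only [minSmoothness_of_isRCLikeNormedField]; norm_cast)
  unfold D2
  rw [h u v]

theorem IsMinkowski.fderiv_smul (hF : IsMinkowski F) {y : E} (hy : y ≠ 0) {t : ℝ} (ht : 0 < t) :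
    fderiv ℝ (fun x => F x ^ 2) (t • y) = t • fderiv ℝ (fun x => F x ^ 2) y := by
  have hty : t • y ≠ 0 := smul_ne_zero ht.ne' hy
  have h1 : (fun x => F (t • x) ^ 2) = fun x => t ^ 2 * F x ^ 2 := by
    funext x; rw [hF.homog t x ht]; ring
  have h2 : HasFDerivAt (fun x => F (t • x) ^ 2)
      ((fderiv ℝ (fun x => F x ^ 2) (t • y)).comp (t • ContinuousLinearMap.id ℝ E)) y := by
    have ha : HasFDerivAt (fun x : E => t • x) (t • ContinuousLinearMap.id ℝ E) y :=
      (hasFDerivAt_id y).const_smul t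
    exact (((hF.sq_contDiffAt hty).differentiableAt (by simp)).hasFDerivAt).comp y ha
  have h3 : HasFDerivAt (fun x => t ^ 2 * F x ^ 2) (t ^ 2 • fderiv ℝ (fun x => F x ^ 2) y) y :=
    (((hF.sq_contDiffAt hy).differentiableAt (by simp)).hasFDerivAt).const_mul (t ^ 2)
  rw [h1] at h2
  have h4 := h2.unique h3
  ext v
  have h5 := congrArg (fun L : E →L[ℝ] ℝ => L v) h4
  simp only [ContinuousLinearMap.comp_apply, smul_apply,
    ContinuousLinearMap.id_apply, map_smul, smul_eq_mul] at h5 ⊢
  have h6 : t * (fderiv ℝ (fun x => F x ^ 2) (t • y) v - t * fderiv ℝ (fun x => F x ^ 2) y v) = 0 := by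
    linarith
  rcases mul_eq_zero.1 h6 with h7 | h7
  · exact absurd h7 ht.ne'
  · linarith

/-- Euler's identity for the fundamental tensor. -/
theorem IsMinkowski.fund_self (hF : IsMinkowski F) {y : E} (hy : y ≠ 0) (v : E) :
    fund F y y v = (1 / 2) * fderiv ℝ (fun x => F x ^ 2) y v := by
  rw [hF.fund_eq hy]
  congr 1
  have h2 : DifferentiableAt ℝ (fderiv ℝ (fun x => F x ^ 2)) y :=
    ((hF.sq_contDiffAt hy).fderiv_right (m := 1) (by norm_cast)).differentiableAt (by simp)
  have h4 := h2.lineDeriv_eq_fderiv (v := y)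
  unfold D2
  rw [← h4, lineDeriv]
  have h1 : (fun s : ℝ => fderiv ℝ (fun x => F x ^ 2) (y + s • y)) =ᶠ[𝓝 0]
      fun s : ℝ => (1 + s) • fderiv ℝ (fun x => F x ^ 2) y := by
    have hc : Tendsto (fun s : ℝ => 1 + s) (𝓝 0) (𝓝 1) := by
      have : Continuous fun s : ℝ => 1 + s := by fun_prop
      simpa using this.tendsto 0
    filter_upwards [hc.eventually (lt_mem_nhds (show (0 : ℝ) < 1 by norm_num))] with s hs
    rw [← hF.fderiv_smul hy hs]
    congr 1
    rw [add_smul, one_smul]
  rw [h1.deriv_eq]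
  have h5 := ((hasDerivAt_id (0 : ℝ)).const_add 1).smul_const (fderiv ℝ (fun x => F x ^ 2) y)
  have h6 := h5.deriv
  simp only [id_eq, one_smul] at h6
  rw [h6]

/-- Comparison at a minimum: if `F ^ 2 ≥ q` along the line through `y` in the direction `v`, with
equality at `y`, where `q` is quadratic, then first and second derivatives compare. -/
theorem IsMinkowski.compare (hF : IsMinkowski F) {y : E} (hy : y ≠ 0) (v : E) (a b c : ℝ)
    (h0 : F y ^ 2 = a) (h : ∀ t : ℝ, a + 2 * b * t + c * t ^ 2 ≤ F (y + t • v) ^ 2) :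
    fderiv ℝ (fun x => F x ^ 2) y v = 2 * b ∧ c ≤ fund F y v v := by
  set f : ℝ → ℝ := fun t => F (y + t • v) ^ 2 - (a + 2 * b * t + c * t ^ 2) with hf
  have hf0 : f 0 = 0 := by simp [hf, h0]
  have hfnn : ∀ t, 0 ≤ f t := fun t => by simp only [hf]; linarith [h t]
  have hmin : IsLocalMin f 0 := by
    refine Filter.Eventually.of_forall fun t => ?_
    rw [hf0]; exact hfnn t
  have hd : ∀ t : ℝ, y + t • v ≠ 0 → HasDerivAt f
      (fderiv ℝ (fun x => F x ^ 2) (y + t • v) v - (2 * b + 2 * c * t)) t := by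
    intro t ht
    have h1 : HasDerivAt (fun t : ℝ => y + t • v) v t := by
      simpa using ((hasDerivAt_id t).smul_const v).const_add y
    have h2 := (((hF.sq_contDiffAt ht).differentiableAt (by simp)).hasFDerivAt).comp_hasDerivAt t h1
    have h3 : HasDerivAt (fun t : ℝ => a + 2 * b * t + c * t ^ 2) (2 * b + 2 * c * t) t := by
      have e1 : HasDerivAt (fun t : ℝ => a + 2 * b * t) (2 * b) t := by
        simpa using ((hasDerivAt_id t).const_mul (2 * b)).const_add a
      have e2 : HasDerivAt (fun t : ℝ => c * t ^ 2) (2 * c * t) t := by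
        have := (hasDerivAt_pow 2 t).const_mul c
        simp only [Nat.add_one_sub_one, pow_one, Nat.cast_ofNat] at this
        rw [show c * (2 * t) = 2 * c * t by ring] at this
        exact this
      exact e1.add e2
    exact h2.sub h3
  have hev : ∀ᶠ t : ℝ in 𝓝 0, y + t • v ≠ 0 := by
    have hc : Tendsto (fun s : ℝ => y + s • v) (𝓝 0) (𝓝 y) := by
      have : Continuous fun s : ℝ => y + s • v := by fun_prop
      simpa using this.tendsto 0
    exact hc.eventually (isOpen_ne.mem_nhds hy)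
  have hd0 := hd 0 (by simpa using hy)
  simp only [zero_smul, add_zero, mul_zero] at hd0
  have h1 := hmin.hasDerivAt_eq_zero hd0
  refine ⟨by linarith, ?_⟩
  -- second derivative
  have hdd : deriv (deriv f) 0 = 2 * fund F y v v - 2 * c := by
    have e1 : deriv f =ᶠ[𝓝 0] fun t => fderiv ℝ (fun x => F x ^ 2) (y + t • v) v
        - (2 * b + 2 * c * t) := by
      filter_upwards [hev] with t ht
      exact (hd t ht).deriv
    rw [e1.deriv_eq]
    have h2 : DifferentiableAt ℝ (fderiv ℝ (fun x => F x ^ 2)) y :=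
      ((hF.sq_contDiffAt hy).fderiv_right (m := 1) (by norm_cast)).differentiableAt (by simp)
    have h3 : HasFDerivAt (fun x => (fderiv ℝ (fun x => F x ^ 2) x) v)
        ((D2 F y).flip v) y := by
      have := (h2.hasFDerivAt).clm_apply (hasFDerivAt_const v y)
      rw [ContinuousLinearMap.comp_zero, zero_add] at this
      exact this
    have h4 : HasDerivAt (fun t : ℝ => y + t • v) v 0 := by
      simpa using ((hasDerivAt_id (0 : ℝ)).smul_const v).const_add y
    have h5 : HasDerivAt (fun t : ℝ => (fderiv ℝ (fun x => F x ^ 2) (y + t • v)) v)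
        (D2 F y v v) 0 := by
      have h3' : HasFDerivAt (fun x => (fderiv ℝ (fun x => F x ^ 2) x) v)
        ((D2 F y).flip v) (y + (0 : ℝ) • v) := by simpa using h3
      exact h3'.comp_hasDerivAt (0 : ℝ) h4
    have h6 : HasDerivAt (fun t : ℝ => 2 * b + 2 * c * t) (2 * c) 0 := by
      simpa using ((hasDerivAt_id (0 : ℝ)).const_mul (2 * c)).const_add (2 * b)
    have h7 : HasDerivAt (fun t : ℝ => (fderiv ℝ (fun x => F x ^ 2) (y + t • v)) v
        - (2 * b + 2 * c * t)) (D2 F y v v - 2 * c) 0 := h5.sub h6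
    rw [h7.deriv, hF.fund_eq hy]
    ring
  by_contra hlt
  push Not at hlt
  have hneg : deriv (deriv f) 0 < 0 := by rw [hdd]; linarith
  have hder0 : deriv f 0 = 0 := by rw [hd0.deriv, h1]
  have hmax := isLocalMax_of_deriv_deriv_neg hneg hder0 hd0.continuousAt
  have hzero : f =ᶠ[𝓝 0] fun _ => 0 := by
    filter_upwards [hmax] with t ht
    exact le_antisymm (by rw [← hf0]; exact ht) (hfnn t)
  have h7 : deriv f =ᶠ[𝓝 0] fun _ => 0 := by
    have := hzero.deriv
    simpa using this
  rw [h7.deriv_eq] at hneg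
  simp at hneg

end Pool.Agent.R734.Finsler
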