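import Mathlib

/-!
# Homogeneous Finsler metrics and their flag curvature

Let `G / H` be a reductive homogeneous space, `g = h + m`. A `G`-invariant Finsler metric on `G / H`
is the same as an `Ad(H)`-invariant Minkowski norm `F` on `m`. Its flag curvature at the origin is
computed from `F` and the two operations `br x y = [x, y]_m` and `cu x y z = [[x, y]_h, z]` on `m`
(L. Huang, On the fundamental equations of homogeneous Finsler spaces, 2015).
-/

set_option autoImplicit false

open scoped ContDiff

namespace Pool.Agent.R734.Finsler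

variable {E : Type*} [NormedAddCommGroup E] [NormedSpace ℝ E]

/-- The fundamental tensor `g_y(u, v) = (1 / 2) ∂²/∂s∂t F(y + s u + t v)²` at `s = t = 0`. -/
noncomputable def fund (F : E → ℝ) (y u v : E) : ℝ :=
  (1 / 2) * deriv (fun s : ℝ => deriv (fun t : ℝ => F (y + s • u + t • v) ^ 2) 0) 0

/-- The Cartan tensor `C_y(u, v, w) = (1 / 2) d/dr g_{y + r w}(u, v)` at `r = 0`. -/
noncomputable def cartan (F : E → ℝ) (y u v w : E) : ℝ :=
  (1 / 2) * deriv (fun r : ℝ => fund F (y + r • w) u v) 0

/-- `F` is a Minkowski norm: smooth and positive off the origin, positively homogeneous of degree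
one, with positive definite fundamental tensors. -/
structure IsMinkowski (F : E → ℝ) : Prop where
  smooth : ContDiffOn ℝ ∞ F {0}ᶜ
  zero : F 0 = 0
  pos : ∀ y, y ≠ 0 → 0 < F y
  homog : ∀ (t : ℝ) (y : E), 0 < t → F (t • y) = t * F y
  convex : ∀ y u, y ≠ 0 → u ≠ 0 → 0 < fund F y u u

/-- `F` is reversible. -/
def IsReversible (F : E → ℝ) : Prop := ∀ y, F (-y) = F y

variable (F : E → ℝ) (br : E → E → E) (cu : E → E → E → E)

/-- `η` is the value at `y` of the spray vector field: `g_y(η, w) = g_y(y, [w, y]_m)`. -/
def IsSpray (y η : E) : Prop := ∀ w, fund F y η w = fund F y y (br w y)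

open Classical in
/-- The spray vector field `η(y)` (the unique vector with `IsSpray`). -/
noncomputable def spray (y : E) : E :=
  if h : ∃ η, IsSpray F br y η then h.choose else 0

/-- `n` is the value `N(y, v)` of the connection operator:
`2 g_y(n, w) = g_y([w, v]_m, y) + g_y([w, y]_m, v) + g_y([v, y]_m, w) - 2 C_y(v, w, η(y))`. -/
def IsConn (y v n : E) : Prop :=
  ∀ w, 2 * fund F y n w = fund F y (br w v) y + fund F y (br w y) v + fund F y (br v y) w
    - 2 * cartan F y v w (spray F br y)

open Classical in
/-- The connection operator `N(y, v)` (the unique vector with `IsConn`). -/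
noncomputable def conn (y v : E) : E :=
  if h : ∃ n, IsConn F br y v n then h.choose else 0

/-- `R̃(y) v = D_{η(y)} N(y, v) - N(y, N(y, v)) + N(y, [y, v]_m) - [y, N(y, v)]_m`. -/
noncomputable def riem (y v : E) : E :=
  deriv (fun s : ℝ => conn F br (y + s • spray F br y) v) 0 - conn F br y (conn F br y v)
    + conn F br y (br y v) - br y (conn F br y v)

/-- `g_y(R_y v, v) = g_y([[v, y]_h, v], y) + g_y(R̃(y) v, v)`. -/
noncomputable def curvForm (y v : E) : ℝ :=
  fund F y (cu v y v) y + fund F y (riem F br y v) v

/-- The flag curvature `K(y, y ∧ v)` at the origin, with flagpole `y`. -/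
noncomputable def flagCurv (y v : E) : ℝ :=
  curvForm F br cu y v / (fund F y y y * fund F y v v - fund F y y v ^ 2)

/-- All flag curvatures are positive. -/
def IsPositivelyCurved : Prop :=
  ∀ y v : E, LinearIndependent ℝ ![y, v] → 0 < flagCurv F br cu y v

end Pool.Agent.R734.Finsler
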