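import Pool.Agent.R734.FinslerCalc

/-!
# An obstruction to positive flag curvature

`E` plays the role of `m` in a reductive decomposition `g = h + m` of a compact Lie algebra, `Q` is
a bi-invariant inner product and `σ` is an involution of `m` coming from an element of `H`.
-/

set_option autoImplicit false

open scoped ContDiff Topology
open Filter

namespace Pool.Agent.R734.Finsler

variable {E : Type*} [NormedAddCommGroup E] [NormedSpace ℝ E] {F : E → ℝ}

/-- The fundamental tensor as a bilinear map. -/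
noncomputable def gm (F : E → ℝ) (y : E) : E →ₗ[ℝ] E →ₗ[ℝ] ℝ :=
  (1 / 2 : ℝ) • (ContinuousLinearMap.coeLM ℝ ∘ₗ (D2 F y).toLinearMap)

theorem IsMinkowski.fund_gm (hF : IsMinkowski F) {y : E} (hy : y ≠ 0) (u v : E) :
    fund F y u v = gm F y u v := by
  rw [hF.fund_eq hy]
  simp [gm]

theorem fund_map {σ : E →ₗ[ℝ] E} (hσ : ∀ x, F (σ x) = F x) (y a b : E) :
    fund F (σ y) (σ a) (σ b) = fund F y a b := by
  unfold fund
  have h : ∀ s t : ℝ, F (σ y + s • σ a + t • σ b) = F (y + s • a + t • b) := by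
    intro s t
    rw [← hσ (y + s • a + t • b)]
    simp [map_add, map_smul]
  simp only [h]

theorem cartan_zero (y a b : E) : cartan F y a b 0 = 0 := by
  unfold cartan
  simp

section
variable (br : E →ₗ[ℝ] E →ₗ[ℝ] E)

theorem IsMinkowski.spray_eq (hF : IsMinkowski F) {y : E} (hy : y ≠ 0) {br : E → E → E} {η : E}
    (h : IsSpray F br y η) : spray F br y = η := by
  have hex : ∃ η, IsSpray F br y η := ⟨η, h⟩
  unfold spray
  rw [dif_pos hex]
  have h1 := hex.choose_spec
  by_contra hne
  have hne' : hex.choose - η ≠ 0 := sub_ne_zero.2 hne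
  have h2 := hF.convex y _ hy hne'
  have h3 := h1 (hex.choose - η)
  have h4 := h (hex.choose - η)
  rw [hF.fund_gm hy] at h2 h3 h4
  rw [hF.fund_gm hy] at h3 h4
  have e : gm F y (hex.choose - η) = gm F y hex.choose - gm F y η := map_sub _ _ _
  have e2 : gm F y (hex.choose - η) (hex.choose - η) =
    gm F y hex.choose (hex.choose - η) - gm F y η (hex.choose - η) := by
    conv_lhs => rw [e]
    rfl
  rw [e2, h3, h4] at h2
  simp at h2

theorem IsMinkowski.conn_eq (hF : IsMinkowski F) {y : E} (hy : y ≠ 0) {br : E → E → E} {v n : E}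
    (h : IsConn F br y v n) : conn F br y v = n := by
  have hex : ∃ n, IsConn F br y v n := ⟨n, h⟩
  unfold conn
  rw [dif_pos hex]
  have h1 := hex.choose_spec
  by_contra hne
  have hne' : hex.choose - n ≠ 0 := sub_ne_zero.2 hne
  have h2 := hF.convex y _ hy hne'
  have h3 := h1 (hex.choose - n)
  have h4 := h (hex.choose - n)
  have h5 : fund F y hex.choose (hex.choose - n) = fund F y n (hex.choose - n) := by linarith
  rw [hF.fund_gm hy] at h2 h5
  rw [hF.fund_gm hy] at h5
  have e : gm F y (hex.choose - n) = gm F y hex.choose - gm F y n := map_sub _ _ _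
  have e2 : gm F y (hex.choose - n) (hex.choose - n) =
    gm F y hex.choose (hex.choose - n) - gm F y n (hex.choose - n) := by
    conv_lhs => rw [e]
    rfl
  rw [e2, h5] at h2
  simp at h2

end

/-- Representation of linear functionals by the fundamental tensor. -/
theorem IsMinkowski.exists_repr [FiniteDimensional ℝ E] (hF : IsMinkowski F) {y : E} (hy : y ≠ 0)
    (l : E →ₗ[ℝ] ℝ) : ∃ n, ∀ w, gm F y n w = l w := by
  have hinj : Function.Injective (gm F y) := by
    rw [← LinearMap.ker_eq_bot, LinearMap.ker_eq_bot']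
    intro m hm
    by_contra hne
    have h1 := hF.convex y m hy hne
    rw [hF.fund_gm hy, hm] at h1
    simp at h1
  have hsurj : Function.Surjective (gm F y) := by
    refine (LinearMap.injective_iff_surjective_of_finrank_eq_finrank ?_).1 hinj
    exact (Subspace.dual_finrank_eq (K := ℝ) (V := E)).symm
  obtain ⟨n, hn⟩ := hsurj l
  exact ⟨n, fun w => by rw [hn]⟩

/-- Minimum of `F ^ 2 / Q` on a subspace. -/
theorem IsMinkowski.exists_min [FiniteDimensional ℝ E] (hF : IsMinkowski F)
    (Q : E →ₗ[ℝ] E →ₗ[ℝ] ℝ) (hQp : ∀ x, x ≠ 0 → 0 < Q x x)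
    (p : Submodule ℝ E) (hp : p ≠ ⊥) :
    ∃ u ∈ p, u ≠ 0 ∧ ∃ l : ℝ, 0 < l ∧ F u ^ 2 = l * Q u u ∧ ∀ w ∈ p, l * Q w w ≤ F w ^ 2 := by
  set K : Set E := (p : Set E) ∩ Metric.sphere 0 1 with hK
  have hKc : IsCompact K := (isCompact_sphere (0 : E) 1).inter_left p.closed_of_finiteDimensional
  obtain ⟨x0, hx0p, hx0⟩ := (Submodule.ne_bot_iff p).1 hp
  have hKne : K.Nonempty := by
    refine ⟨‖x0‖⁻¹ • x0, p.smul_mem _ hx0p, ?_⟩
    rw [mem_sphere_zero_iff_norm, norm_smul, norm_inv, norm_norm,
      inv_mul_cancel₀ (norm_ne_zero_iff.2 hx0)]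
  have hK0 : ∀ x ∈ K, x ≠ 0 := by
    rintro x ⟨-, hx⟩ rfl
    simp at hx
  have hQc : Continuous fun x => Q x x := by
    have h1 : Continuous fun x : E × E => Q x.1 x.2 := by
      let Q' : E →ₗ[ℝ] E →L[ℝ] ℝ :=
        (LinearMap.toContinuousLinearMap (𝕜 := ℝ) (E := E) (F' := ℝ)).toLinearMap ∘ₗ Q
      have h2 : Continuous Q' := LinearMap.continuous_of_finiteDimensional Q'
      have h3 : Continuous fun x : E × E => (Q' x.1) x.2 :=
        (h2.comp continuous_fst).clm_apply continuous_snd
      exact h3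
    exact h1.comp (continuous_id.prodMk continuous_id)
  have hcont : ContinuousOn (fun x => F x ^ 2 / Q x x) K := by
    refine ContinuousOn.div ?_ hQc.continuousOn fun x hx => (hQp x (hK0 x hx)).ne'
    exact (hF.smooth.continuousOn.mono fun x hx => hK0 x hx).pow 2
  obtain ⟨u, huK, hu⟩ := hKc.exists_isMinOn hKne hcont
  have hu0 := hK0 u huK
  have hQu := hQp u hu0
  refine ⟨u, huK.1, hu0, F u ^ 2 / Q u u, ?_, ?_, ?_⟩
  · exact div_pos (pow_pos (hF.pos u hu0) 2) hQu
  · field_simp
  · intro w hw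
    rcases eq_or_ne w 0 with rfl | hw0
    · simp [hF.zero]
    · have hnw : 0 < ‖w‖ := norm_pos_iff.2 hw0
      set v := ‖w‖⁻¹ • w with hv
      have hvK : v ∈ K := by
        refine ⟨p.smul_mem _ hw, ?_⟩
        rw [mem_sphere_zero_iff_norm, hv, norm_smul, norm_inv, norm_norm,
          inv_mul_cancel₀ hnw.ne']
      have h1 : F u ^ 2 / Q u u ≤ F v ^ 2 / Q v v := hu hvK
      have hwv : w = ‖w‖ • v := by rw [hv, smul_smul, mul_inv_cancel₀ hnw.ne', one_smul]
      rw [hwv, hF.homog _ _ hnw]
      simp only [map_smul, LinearMap.smul_apply, smul_eq_mul]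
      have h2 : F u ^ 2 / Q u u * Q v v ≤ F v ^ 2 := by
        rwa [le_div_iff₀ (hQp v (hK0 v hvK))] at h1
      have h3 : 0 ≤ ‖w‖ ^ 2 := by positivity
      have h4 := mul_le_mul_of_nonneg_left h2 h3
      calc F u ^ 2 / Q u u * (‖w‖ * (‖w‖ * Q v v)) = ‖w‖ ^ 2 * (F u ^ 2 / Q u u * Q v v) := by ring
        _ ≤ ‖w‖ ^ 2 * F v ^ 2 := h4
        _ = (‖w‖ * F v) ^ 2 := by ring

/-- The general obstruction. -/
theorem not_positive [FiniteDimensional ℝ E] (hF : IsMinkowski F) (hrev : IsReversible F)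
    (Q : E →ₗ[ℝ] E →ₗ[ℝ] ℝ) (hQs : ∀ x y, Q x y = Q y x) (hQp : ∀ x, x ≠ 0 → 0 < Q x x)
    (br : E →ₗ[ℝ] E →ₗ[ℝ] E) (cu : E → E → E → E)
    (σ : E →ₗ[ℝ] E) (hσσ : ∀ x, σ (σ x) = x) (hσF : ∀ x, F (σ x) = F x)
    (hσbr : ∀ x y, σ (br x y) = br (σ x) (σ y))
    (hskew : ∀ x y, br x y = - br y x)
    (had : ∀ x y z, Q (br x y) z = Q x (br y z))
    (p mp : Submodule ℝ E) (hp : ∀ x, x ∈ p ↔ σ x = -x) (hmp : ∀ x, x ∈ mp ↔ σ x = x)
    (hcu : ∀ y ∈ mp, ∀ u ∈ p, cu y u y = 0)
    (hp0 : p ≠ ⊥) (hdim : Module.finrank ℝ p < Module.finrank ℝ mp) :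
    ¬ IsPositivelyCurved F (fun x y => br x y) cu := by
  intro hpos
  obtain ⟨u, hup, hu0, l, hl, hFu, hmin⟩ := hF.exists_min Q hQp p hp0
  set g := gm F u with hg
  have hgf : ∀ a b, fund F u a b = g a b := fun a b => hF.fund_gm hu0 a b
  have hgs : ∀ a b, g a b = g b a := fun a b => by
    rw [← hgf, ← hgf]; exact hF.fund_symm hu0 a b
  have hσu : σ u = -u := (hp u).1 hup
  -- decomposition
  have hdec : ∀ w : E, ∃ a ∈ p, ∃ b ∈ mp, w = a + b := by
    intro w
    refine ⟨(1 / 2 : ℝ) • (w - σ w), ?_, (1 / 2 : ℝ) • (w + σ w), ?_, ?_⟩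
    · rw [hp, map_smul, map_sub, hσσ, ← smul_neg, neg_sub]
    · rw [hmp, map_smul, map_add, hσσ, add_comm]
    · rw [← smul_add, show w - σ w + (w + σ w) = (2 : ℝ) • w by rw [two_smul]; abel, smul_smul]
      norm_num
  -- brackets
  have hpp : ∀ a ∈ p, ∀ b ∈ p, br a b ∈ mp := fun a ha b hb => by
    rw [hmp, hσbr, (hp a).1 ha, (hp b).1 hb]; simp
  have hmpp : ∀ a ∈ mp, ∀ b ∈ p, br a b ∈ p := fun a ha b hb => by
    rw [hp, hσbr, (hmp a).1 ha, (hp b).1 hb]; simp
  have hpmp : ∀ a ∈ p, ∀ b ∈ mp, br a b ∈ p := fun a ha b hb => by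
    rw [hp, hσbr, (hp a).1 ha, (hmp b).1 hb]; simp
  have hmm : ∀ a ∈ mp, ∀ b ∈ mp, br a b ∈ mp := fun a ha b hb => by
    rw [hmp, hσbr, (hmp a).1 ha, (hmp b).1 hb]
  -- orthogonality
  have hτF : ∀ x, F ((-σ) x) = F x := fun x => by
    rw [LinearMap.neg_apply, hrev, hσF]
  have horth : ∀ a ∈ mp, ∀ b ∈ p, g a b = 0 := by
    intro a ha b hb
    have h1 := fund_map (σ := -σ) hτF u a b
    simp only [LinearMap.neg_apply, hσu, (hmp a).1 ha, (hp b).1 hb, neg_neg] at h1
    rw [hgf, hgf] at h1
    rw [map_neg, LinearMap.neg_apply] at h1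
    linarith
  have horth' : ∀ a ∈ p, ∀ b ∈ mp, g a b = 0 := fun a ha b hb => by
    rw [hgs]; exact horth b hb a ha
  -- comparison
  have hcomp : ∀ w ∈ p, fderiv ℝ (fun x => F x ^ 2) u w = 2 * (l * Q u w) ∧
      l * Q w w ≤ fund F u w w := by
    intro w hw
    refine hF.compare hu0 w (l * Q u u) (l * Q u w) (l * Q w w) hFu ?_
    intro t
    have h1 := hmin (u + t • w) (p.add_mem hup (p.smul_mem t hw))
    refine le_trans (le_of_eq ?_) h1
    simp only [map_add, map_smul, LinearMap.add_apply, LinearMap.smul_apply, smul_eq_mul]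
    rw [hQs w u]
    ring
  have hgu : ∀ w ∈ p, g w u = l * Q w u := by
    intro w hw
    rw [hgs, ← hgf, hF.fund_self hu0, (hcomp w hw).1, hQs w u]
    ring
  have hgw : ∀ w ∈ p, l * Q w w ≤ g w w := fun w hw => by
    rw [← hgf]; exact (hcomp w hw).2
  -- spray
  have hsp : spray F (fun x y => br x y) u = 0 := by
    refine hF.spray_eq hu0 ?_
    intro w
    obtain ⟨a, ha, b, hb, rfl⟩ := hdec w
    rw [hgf, hgf]
    simp only [map_zero, LinearMap.zero_apply, map_add, LinearMap.add_apply]
    rw [horth' u hup _ (hpp a ha u hup), hgs, hgu _ (hmpp b hb u hup)]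
    have h1 := had u b u
    rw [hskew u b, map_neg, LinearMap.neg_apply, hQs u] at h1
    have h2 : Q (br b u) u = 0 := by linarith
    rw [h2]; ring
  -- the linear map
  let Ψ : mp →ₗ[ℝ] Module.Dual ℝ p :=
    { toFun := fun y =>
        { toFun := fun w => l * Q (br w y) u + g (br w u) y - g (br y u) w
          map_add' := by
            intro w w'
            simp only [Submodule.coe_add, map_add, LinearMap.add_apply]
            ring
          map_smul' := by
            intro c w
            simp only [Submodule.coe_smul, map_smul, LinearMap.smul_apply, smul_eq_mul,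
              RingHom.id_apply]
            ring }
      map_add' := by
        intro y y'
        ext w
        simp only [Submodule.coe_add, map_add, LinearMap.add_apply, LinearMap.coe_mk,
          AddHom.coe_mk]
        ring
      map_smul' := by
        intro c y
        ext w
        simp only [Submodule.coe_smul, map_smul, LinearMap.smul_apply, smul_eq_mul,
          RingHom.id_apply, LinearMap.coe_mk, AddHom.coe_mk]
        ring }
  have hker : LinearMap.ker Ψ ≠ ⊥ := by
    apply LinearMap.ker_ne_bot_of_finrank_lt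
    rw [Subspace.dual_finrank_eq]
    exact hdim
  obtain ⟨y', hy'k, hy'0⟩ := (Submodule.ne_bot_iff _).1 hker
  set y : E := (y' : E) with hy
  have hym : y ∈ mp := y'.2
  have hy0 : y ≠ 0 := fun h => hy'0 (Subtype.ext h)
  have hΨ : ∀ w ∈ p, l * Q (br w y) u + g (br w u) y - g (br y u) w = 0 := by
    intro w hw
    have h1 : Ψ y' = 0 := hy'k
    have h2 := congrArg (fun L : Module.Dual ℝ p => L ⟨w, hw⟩) h1
    exact h2
  set z : E := br y u with hz
  have hzp : z ∈ p := hmpp y hym u hup
  -- the connection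
  have hconn : IsConn F (fun x y => br x y) u y z := by
    intro w
    rw [hsp, cartan_zero]
    simp only [hgf]
    obtain ⟨a, ha, b, hb, rfl⟩ := hdec w
    simp only [map_add, LinearMap.add_apply]
    have h1 := hΨ a ha
    have e1 : g (br a y) u = l * Q (br a y) u := hgu _ (hpmp a ha y hym)
    have e2 : g z b = 0 := horth' z hzp b hb
    have e3 : g (br b y) u = 0 := horth _ (hmm b hb y hym) u hup
    have e4 : g (br b u) y = 0 := horth' _ (hmpp b hb u hup) y hym
    rw [← hz]
    rw [e1, e2, e3, e4]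
    linarith
  have hconn' := hF.conn_eq hu0 hconn
  -- connection on `z`
  have hex : ∃ n, IsConn F (fun x y => br x y) u z n := by
    let ℓ : E →ₗ[ℝ] ℝ := (1 / 2 : ℝ) •
      ((g.flip u) ∘ₗ (br.flip z) + (g.flip z) ∘ₗ (br.flip u) + g (br z u))
    obtain ⟨n, hn⟩ := hF.exists_repr hu0 ℓ
    refine ⟨n, fun w => ?_⟩
    rw [hsp, cartan_zero]
    simp only [hgf]
    have h1 := hn w
    simp only [ℓ, LinearMap.smul_apply, LinearMap.add_apply, LinearMap.comp_apply,
      LinearMap.flip_apply, smul_eq_mul] at h1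
    rw [hg, h1, ← hg]
    ring
  obtain ⟨n, hn⟩ := hex
  have hn1 := hF.conn_eq hu0 hn
  have hn2 : conn F (fun x y => br x y) u (-z) = -n := by
    refine hF.conn_eq hu0 ?_
    intro w
    have h1 := hn w
    rw [hsp, cartan_zero] at h1 ⊢
    simp only [hgf, map_neg, LinearMap.neg_apply] at h1 ⊢
    linarith
  -- curvature
  have hriem : riem F (fun x y => br x y) u y = -n + -n - br u z := by
    unfold riem
    rw [hsp, hconn', hn1]
    have h1 : br u y = -z := by rw [hskew]
    simp only [smul_zero, add_zero]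
    rw [h1, hn2, hconn']
    simp
  have hcurv : curvForm F (fun x y => br x y) cu u y ≤ 0 := by
    unfold curvForm
    rw [hcu y hym u hup, hriem, hgf, hgf]
    simp only [map_zero, LinearMap.zero_apply, map_sub, map_add, map_neg, LinearMap.sub_apply,
      LinearMap.add_apply, LinearMap.neg_apply]
    have h1 := hn y
    rw [hsp, cartan_zero] at h1
    simp only [hgf] at h1
    have h2 : g (br u z) y = - g (br z u) y := by rw [hskew u z, map_neg, LinearMap.neg_apply]
    have h3 : g (br y z) u = l * Q (br y z) u := hgu _ (hmpp y hym z hzp)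
    have h4 : Q (br y z) u = - Q z z := by
      rw [hskew y z, map_neg, LinearMap.neg_apply, had z y u]
    have h5 := hgw z hzp
    rw [← hz] at h1
    rw [h2]
    rw [h3, h4] at h1
    linarith
  -- conclusion
  have hli : LinearIndependent ℝ ![u, y] := by
    rw [LinearIndependent.pair_iff]
    intro s t hst
    have h1 : σ (s • u + t • y) = 0 := by rw [hst, map_zero]
    rw [map_add, map_smul, map_smul, hσu, (hmp y).1 hym, smul_neg] at h1
    have h2 : (2 : ℝ) • (t • y) = 0 := by
      have := congrArg₂ (· + ·) hst h1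
      simp only [add_zero] at this
      rw [two_smul]
      rw [← this]
      abel
    have h3 : t = 0 := by
      rcases smul_eq_zero.1 h2 with h | h
      · norm_num at h
      · rcases smul_eq_zero.1 h with h | h
        · exact h
        · exact absurd h hy0
    rw [h3, zero_smul, add_zero] at hst
    rcases smul_eq_zero.1 hst with h | h
    · exact ⟨h, h3⟩
    · exact absurd h hu0
  have h1 := hpos u y hli
  unfold flagCurv at h1
  have h2 : 0 < fund F u u u * fund F u y y - fund F u u y ^ 2 := by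
    have e1 := hF.convex u u hu0 hu0
    have e2 := hF.convex u y hu0 hy0
    have e3 : fund F u u y = 0 := by rw [hgf]; exact horth' u hup y hym
    rw [e3]
    have := mul_pos e1 e2
    linarith
  have h3 : curvForm F (fun x y => br x y) cu u y /
      (fund F u u u * fund F u y y - fund F u u y ^ 2) ≤ 0 :=
    div_nonpos_of_nonpos_of_nonneg hcurv h2.le
  linarith

end Pool.Agent.R734.Finsler
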