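import Mathlib

/-!
# Curvature pinching of left invariant metrics on Heintze groups of Carnot type

Left invariant Riemannian metrics on a simply connected Lie group with Lie algebra `g` are the inner
products on `g`; their Levi-Civita connection maps left invariant vector fields to left invariant
vector fields, so connection, curvature and sectional curvature are computed in `g`.
-/

set_option autoImplicit false

namespace Pool.Agent.R734.Heintze

open Module

/-- A left invariant Riemannian metric on the simply connected Lie group with Lie algebra `g`, given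
by an inner product on `g` (a symmetric, positive definite bilinear form). -/
structure InvMetric (g : Type*) [LieRing g] [LieAlgebra ℝ g] where
  /-- the inner product -/
  inner : LinearMap.BilinForm ℝ g
  symm : ∀ x y, inner x y = inner y x
  pos : ∀ x, x ≠ 0 → 0 < inner x x

section

variable {g : Type*} [LieRing g] [LieAlgebra ℝ g]

/-- `nab` is the Levi-Civita connection of the left invariant metric `B`, restricted to left
invariant vector fields: it is torsion free and metric. -/
structure InvMetric.IsLeviCivita (B : InvMetric g) (nab : g →ₗ[ℝ] g →ₗ[ℝ] g) : Prop where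
  torsion_free : ∀ x y, nab x y - nab y x = ⁅x, y⁆
  metric : ∀ x y z, B.inner (nab x y) z + B.inner y (nab x z) = 0

theorem InvMetric.inner_skew (B : InvMetric g) (x y z : g) :
    B.inner ⁅x, y⁆ z = - B.inner ⁅y, x⁆ z := by
  rw [← lie_skew x y, map_neg, LinearMap.neg_apply]

theorem InvMetric.nondeg (B : InvMetric g) : B.inner.Nondegenerate := by
  constructor
  · intro x hx
    by_contra h
    exact (B.pos x h).ne' (hx x)
  · intro x hx
    by_contra h
    exact (B.pos x h).ne' (hx x)

theorem InvMetric.ext_inner (B : InvMetric g) {x y : g} (h : ∀ z, B.inner x z = B.inner y z) :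
    x = y := by
  have h1 : ∀ z, B.inner (x - y) z = 0 := fun z => by simp [h z]
  by_contra hne
  exact (B.pos (x - y) (sub_ne_zero.2 hne)).ne' (h1 _)

theorem InvMetric.cauchy (B : InvMetric g) (x y : g) :
    B.inner x y ^ 2 ≤ B.inner x x * B.inner y y := by
  by_cases hy : y = 0
  · simp [hy]
  · have hp := B.pos y hy
    have h0 : 0 ≤ B.inner (B.inner y y • x - B.inner x y • y) (B.inner y y • x - B.inner x y • y) := by
      by_cases hz : B.inner y y • x - B.inner x y • y = 0
      · simp [hz]
      · exact (B.pos _ hz).le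
    have h1 : B.inner (B.inner y y • x - B.inner x y • y) (B.inner y y • x - B.inner x y • y) =
        B.inner y y * (B.inner x x * B.inner y y - B.inner x y ^ 2) := by
      simp only [map_sub, map_smul, LinearMap.sub_apply, LinearMap.smul_apply, smul_eq_mul]
      rw [B.symm y x]; ring
    rw [h1] at h0
    have := nonneg_of_mul_nonneg_right h0 hp
    linarith

variable [FiniteDimensional ℝ g]

/-- The right-hand side of the Koszul formula. -/
noncomputable def koszul (B : InvMetric g) (x y : g) : Module.Dual ℝ g where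
  toFun z := (1 / 2 : ℝ) * (B.inner ⁅x, y⁆ z - B.inner ⁅y, z⁆ x + B.inner ⁅z, x⁆ y)
  map_add' z z' := by simp; ring
  map_smul' c z := by simp; ring

/-- Existence and uniqueness of the Levi-Civita connection. -/
theorem InvMetric.existsUnique_leviCivita (B : InvMetric g) :
    ∃! nab : g →ₗ[ℝ] g →ₗ[ℝ] g, B.IsLeviCivita nab := by
  let e := LinearMap.BilinForm.toDual B.inner B.nondeg
  have he : ∀ φ z, B.inner (e.symm φ) z = φ z := fun φ z => by
    simp [e]
  let nab : g →ₗ[ℝ] g →ₗ[ℝ] g := LinearMap.mk₂ ℝ (fun x y => e.symm (koszul B x y))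
    (fun x x' y => B.ext_inner fun z => by simp [he, koszul]; ring)
    (fun c x y => B.ext_inner fun z => by simp [he, koszul]; ring)
    (fun x y y' => B.ext_inner fun z => by simp [he, koszul]; ring)
    (fun c x y => B.ext_inner fun z => by simp [he, koszul]; ring)
  have hn : ∀ x y z, B.inner (nab x y) z =
      (1 / 2 : ℝ) * (B.inner ⁅x, y⁆ z - B.inner ⁅y, z⁆ x + B.inner ⁅z, x⁆ y) := fun x y z => by
    simp [nab, he, koszul]
  refine ⟨nab, ⟨fun x y => B.ext_inner fun z => ?_, fun x y z => ?_⟩, fun nab' h' => ?_⟩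
  · have e1 := B.inner_skew y x z
    have e2 := B.inner_skew x z y
    have e3 := B.inner_skew z y x
    rw [map_sub, LinearMap.sub_apply, hn, hn, e1, e2, e3]; ring
  · rw [B.symm y (nab x z), hn, hn]
    have e1 := B.inner_skew y x z
    have e2 := B.inner_skew x z y
    have e3 := B.inner_skew z y x
    rw [e1, e2, e3]; ring
  · ext x y
    refine B.ext_inner fun z => ?_
    rw [hn]
    have t1 := congrArg (fun v => B.inner v z) (h'.torsion_free x y)
    have t2 := congrArg (fun v => B.inner v x) (h'.torsion_free y z)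
    have t3 := congrArg (fun v => B.inner v y) (h'.torsion_free z x)
    have m1 := h'.metric x y z
    have m2 := h'.metric y z x
    have m3 := h'.metric z x y
    simp only [map_sub, LinearMap.sub_apply] at t1 t2 t3
    rw [← t1, ← t2, ← t3]
    have s1 := B.symm y (nab' x z)
    have s2 := B.symm z (nab' y x)
    have s3 := B.symm x (nab' z y)
    linarith

/-- The Levi-Civita connection of a left invariant metric on left invariant vector fields. -/
noncomputable def InvMetric.nabla (B : InvMetric g) : g →ₗ[ℝ] g →ₗ[ℝ] g :=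
  B.existsUnique_leviCivita.choose

theorem InvMetric.nabla_spec (B : InvMetric g) : B.IsLeviCivita B.nabla :=
  B.existsUnique_leviCivita.choose_spec.1

/-- The curvature tensor `R(x, y) z = ∇_x ∇_y z - ∇_y ∇_x z - ∇_[x, y] z`. -/
noncomputable def InvMetric.curv (B : InvMetric g) (x y z : g) : g :=
  B.nabla x (B.nabla y z) - B.nabla y (B.nabla x z) - B.nabla ⁅x, y⁆ z

/-- The sectional curvature of the plane spanned by `x` and `y` (linearly independent). -/
noncomputable def InvMetric.sec (B : InvMetric g) (x y : g) : ℝ :=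
  B.inner (B.curv x y y) x / (B.inner x x * B.inner y y - B.inner x y ^ 2)

/-- All sectional curvatures of the left invariant metric `B` lie in `[a, b]`. -/
def InvMetric.SecIn (B : InvMetric g) (a b : ℝ) : Prop :=
  ∀ x y : g, LinearIndependent ℝ ![x, y] → a ≤ B.sec x y ∧ B.sec x y ≤ b

/-- Curvatures of planes containing the normal `ν` of an ideal `N` of codimension one. -/
theorem InvMetric.curv_normal (B : InvMetric g) (N : Submodule ℝ g) (ν : g)
    (hν : ∀ x ∈ N, B.inner ν x = 0) (hN : ∀ x y : g, ⁅x, y⁆ ∈ N) (x : g) (hx : x ∈ N) :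
    B.inner (B.curv x ν ν) x =
      - B.inner (B.nabla x ν) (B.nabla x ν) + 2 * B.inner (B.nabla x ν) (B.nabla ν x) := by
  have hT := B.nabla_spec.torsion_free
  have hM := B.nabla_spec.metric
  have hself : ∀ u v, B.inner (B.nabla u v) v = 0 := fun u v => by
    have := hM u v v
    rw [B.symm v] at this; linarith
  -- symmetry of `x ↦ ∇_x ν` on `N`
  have hS : ∀ u ∈ N, ∀ v ∈ N, B.inner (B.nabla u ν) v = B.inner (B.nabla v ν) u := by
    intro u hu v hv
    have h1 := hM u ν v
    have h2 := hM v ν u
    have h3 := hν _ (hN u v)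
    rw [← hT u v, map_sub] at h3
    linarith
  have h0 : B.nabla ν ν = 0 := by
    refine B.ext_inner fun z => ?_
    have h1 := hM ν ν z
    have h3 := hν _ (hN ν z)
    rw [← hT ν z, map_sub] at h3
    have h4 := hself z ν
    rw [B.symm] at h4
    simp only [map_zero, LinearMap.zero_apply]
    linarith
  have h5 : B.inner (B.nabla ⁅x, ν⁆ ν) x = B.inner (B.nabla x ν) ⁅x, ν⁆ := hS _ (hN x ν) _ hx
  have h6 := hM ν (B.nabla x ν) x
  unfold InvMetric.curv
  rw [h0]
  simp only [map_sub, map_zero, LinearMap.sub_apply, zero_sub, map_neg,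
    LinearMap.neg_apply]
  rw [h5, ← hT x ν, map_sub]
  linarith

/-- If `v` is an eigenvector of `ad ν` on `N`, the plane of `v` and `ν` has curvature at least
`- c ^ 2 / |ν| ^ 2`. -/
theorem InvMetric.curv_eigen (B : InvMetric g) (N : Submodule ℝ g) (ν : g)
    (hν : ∀ x ∈ N, B.inner ν x = 0) (hN : ∀ x y : g, ⁅x, y⁆ ∈ N) (v : g) (hv : v ∈ N) (c : ℝ)
    (hc : ⁅ν, v⁆ = c • v) :
    - c ^ 2 * B.inner v v ≤ B.inner (B.curv v ν ν) v := by
  have hT := B.nabla_spec.torsion_free
  have hM := B.nabla_spec.metric
  rw [B.curv_normal N ν hν hN v hv]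
  have h1 : B.nabla ν v = c • v + B.nabla v ν := by rw [← hc, ← hT ν v]; abel
  have h2 : B.inner (B.nabla ν v) v = 0 := by
    have := hM ν v v
    rw [B.symm v] at this; linarith
  rw [h1] at h2
  simp only [map_add, map_smul, LinearMap.add_apply, LinearMap.smul_apply, smul_eq_mul] at h2
  rw [h1]
  simp only [map_add, map_smul, smul_eq_mul]
  have h3 := B.cauchy (B.nabla v ν) v
  have h4 : B.inner (B.nabla v ν) v = - (c * B.inner v v) := by linarith
  rw [h4] at h3 ⊢
  by_cases hv0 : v = 0
  · subst hv0; simp
  · have hp := B.pos v hv0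
    have h5 : c ^ 2 * B.inner v v ≤ B.inner (B.nabla v ν) (B.nabla v ν) := by
      by_contra hlt
      push Not at hlt
      nlinarith
    nlinarith

/-- If `w` is an eigenvector of the transpose of `ad ν` on `N`, the plane of `w` and `ν` has
curvature at most `- μ ^ 2 / |ν| ^ 2`. -/
theorem InvMetric.curv_coeigen (B : InvMetric g) (N : Submodule ℝ g) (ν : g)
    (hν : ∀ x ∈ N, B.inner ν x = 0) (hN : ∀ x y : g, ⁅x, y⁆ ∈ N)
    (hNν : ∀ x, B.inner ν x = 0 → x ∈ N) (w : g) (hw : w ∈ N) (μ : ℝ)
    (hμ : ∀ x ∈ N, B.inner w ⁅ν, x⁆ = μ * B.inner w x) :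
    B.inner (B.curv w ν ν) w ≤ - μ ^ 2 * B.inner w w := by
  have hT := B.nabla_spec.torsion_free
  have hM := B.nabla_spec.metric
  rw [B.curv_normal N ν hν hN w hw]
  have hself : ∀ u v, B.inner (B.nabla u v) v = 0 := fun u v => by
    have := hM u v v
    rw [B.symm v] at this; linarith
  have hS : ∀ u ∈ N, ∀ v ∈ N, B.inner (B.nabla u ν) v = B.inner (B.nabla v ν) u := by
    intro u hu v hv
    have h1 := hM u ν v
    have h2 := hM v ν u
    have h3 := hν _ (hN u v)
    rw [← hT u v, map_sub] at h3
    linarith
  have hsN : B.nabla w ν ∈ N := hNν _ (by rw [B.symm]; exact hself w ν)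
  -- `(S - T) w = μ w` tested against `x`
  have key : ∀ x ∈ N, B.inner (B.nabla w ν) x + B.inner (B.nabla ν w) x = - (μ * B.inner w x) := by
    intro x hx
    have h1 := hμ x hx
    have h2 := hS w hw x hx
    have h3 := hM ν w x
    rw [← hT ν x, map_sub, B.symm w (B.nabla x ν)] at h1
    linarith
  have k1 := key _ hsN
  have k2 : B.inner (B.nabla w ν) w = - (μ * B.inner w w) := by
    have := key w hw
    rw [hself ν w] at this
    linarith
  have h3 := B.cauchy (B.nabla w ν) w
  rw [B.symm (B.nabla ν w), B.symm w (B.nabla w ν), k2] at k1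
  rw [k2] at h3
  by_cases hw0 : w = 0
  · subst hw0; simp
  · have hp := B.pos w hw0
    have h5 : μ ^ 2 * B.inner w w ≤ B.inner (B.nabla w ν) (B.nabla w ν) := by
      by_contra hlt
      push Not at hlt
      nlinarith
    nlinarith

end

end Pool.Agent.R734.Heintze
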