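import Pool.Agent.R237.LZ.Stm

/-! Project LZ (helper237), piece LIMA: upper bound of the polynomials. -/

set_option autoImplicit false

namespace Pool.Agent.R734.LZ

open Pool.Agent.R237.LZ

theorem t_LIMA : S_LIMA := by
  intro α hα n x hx
  have hα0 : 0 < α := by linarith
  set y : ℝ := x ^ (1 / α) with hy
  have hy0 : 0 ≤ y := Real.rpow_nonneg hx _
  have hyα : y ^ α = x := by
    rw [hy, ← Real.rpow_mul hx, one_div_mul_cancel hα0.ne', Real.rpow_one]
  have h1 : ∀ k ∈ Finset.range (n + 1), (((n.choose k : ℝ) / (n : ℝ) ^ k) ^ α) * x ^ k ≤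
      (y ^ k / (k.factorial : ℝ)) * (Real.exp y) ^ (α - 1) := by
    intro k _
    have hc0 : 0 ≤ y ^ k / (k.factorial : ℝ) := by positivity
    have hcS : y ^ k / (k.factorial : ℝ) ≤ Real.exp y := Real.pow_div_factorial_le_exp y hy0 k
    have h2 : (n.choose k : ℝ) / (n : ℝ) ^ k ≤ 1 / (k.factorial : ℝ) := by
      rcases eq_or_lt_of_le (show (0 : ℝ) ≤ (n : ℝ) ^ k by positivity) with h | h
      · rw [← h, div_zero]; positivity
      · rw [div_le_iff₀ h]
        refine (Nat.choose_le_pow_div (α := ℝ) k n).trans (le_of_eq ?_)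
        ring
    have h3 : (1 / (k.factorial : ℝ)) ^ α * x ^ k = (y ^ k / (k.factorial : ℝ)) ^ α := by
      rw [div_eq_mul_one_div (y ^ k), Real.mul_rpow (by positivity) (by positivity),
        ← Real.rpow_natCast y k, ← Real.rpow_mul hy0, mul_comm (k : ℝ) α, Real.rpow_mul hy0, hyα,
        Real.rpow_natCast, mul_comm]
    calc (((n.choose k : ℝ) / (n : ℝ) ^ k) ^ α) * x ^ k
        ≤ (1 / (k.factorial : ℝ)) ^ α * x ^ k := by
          apply mul_le_mul_of_nonneg_right _ (by positivity)
          exact Real.rpow_le_rpow (by positivity) h2 hα0.le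
      _ = (y ^ k / (k.factorial : ℝ)) ^ α := h3
      _ = (y ^ k / (k.factorial : ℝ)) * (y ^ k / (k.factorial : ℝ)) ^ (α - 1) := by
          rcases eq_or_lt_of_le hc0 with h | h
          · rw [← h, Real.zero_rpow hα0.ne', zero_mul]
          · rw [Real.rpow_sub_one h.ne', mul_div_cancel₀ _ h.ne']
      _ ≤ _ := mul_le_mul_of_nonneg_left (Real.rpow_le_rpow hc0 hcS (by linarith)) hc0
  calc pn α n x ≤ ∑ k ∈ Finset.range (n + 1),
        (y ^ k / (k.factorial : ℝ)) * (Real.exp y) ^ (α - 1) := Finset.sum_le_sum h1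
    _ = (∑ k ∈ Finset.range (n + 1), y ^ k / (k.factorial : ℝ)) * (Real.exp y) ^ (α - 1) := by
        rw [Finset.sum_mul]
    _ ≤ Real.exp y * (Real.exp y) ^ (α - 1) :=
        mul_le_mul_of_nonneg_right (Real.sum_le_exp_of_nonneg hy0 _) (by positivity)
    _ = Real.exp (α * y) := by
        rw [← Real.exp_mul, ← Real.exp_add]
        congr 1
        ring

end Pool.Agent.R734.LZ
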