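import Pool.Agent.R734.FinslerDefs

/-!
# The coset space `Sp(3) / diag(z, z, q)`

`sp(3)` is the Lie algebra of skew-Hermitian quaternionic `3 × 3` matrices, `h` the Lie algebra of
`H = {diag(z, z, q)}` with `z` a unit complex number and `q` a unit quaternion, and `m` the
orthogonal complement of `h` for the bi-invariant inner product `Q(X, Y) = - Re tr (X Y)`.
-/

set_option autoImplicit false

open Matrix Quaternion

open scoped Matrix.Norms.Frobenius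

namespace Pool.Agent.R734.Sp3

/-- Quaternionic `3 × 3` matrices. -/
abbrev Mat : Type := Matrix (Fin 3) (Fin 3) ℍ[ℝ]

/-- The bi-invariant inner product on `sp(3)`. -/
noncomputable def Q (X Y : Mat) : ℝ := -(Matrix.trace (X * Y)).re

/-- The Lie algebra `sp(3)` of skew-Hermitian matrices. -/
def sp : Submodule ℝ Mat where
  carrier := {X | Xᴴ = -X}
  add_mem' := by
    intro a b (ha : aᴴ = -a) (hb : bᴴ = -b)
    change (a + b)ᴴ = -(a + b)
    rw [conjTranspose_add, ha, hb, neg_add]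
  zero_mem' := by simp
  smul_mem' := by
    intro c x (hx : xᴴ = -x)
    change (c • x)ᴴ = -(c • x)
    rw [← smul_neg, ← hx]
    ext i j <;> simp

/-- The subgroup `H` of matrices `diag(z, z, q)`. -/
def H : Set Mat :=
  {g | ∃ z q : ℍ[ℝ], z.imJ = 0 ∧ z.imK = 0 ∧ ‖z‖ = 1 ∧ ‖q‖ = 1 ∧ g = Matrix.diagonal ![z, z, q]}

/-- The Lie algebra of `H`: matrices `diag(t i, t i, q)` with `t` real and `q` imaginary. -/
def h : Submodule ℝ Mat where
  carrier := {X | ∃ (t : ℝ) (q : ℍ[ℝ]), q.re = 0 ∧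
    X = Matrix.diagonal ![⟨0, t, 0, 0⟩, ⟨0, t, 0, 0⟩, q]}
  add_mem' := by
    rintro _ _ ⟨t, q, hq, rfl⟩ ⟨t', q', hq', rfl⟩
    refine ⟨t + t', q + q', by simp [hq, hq'], ?_⟩
    rw [Matrix.diagonal_add]
    congr 1
    funext i
    fin_cases i <;> ext <;> simp
  zero_mem' := by
    refine ⟨0, 0, rfl, ?_⟩
    rw [← Matrix.diagonal_zero]
    congr 1
    funext i
    fin_cases i <;> ext <;> simp
  smul_mem' := by
    rintro c _ ⟨t, q, hq, rfl⟩
    refine ⟨c * t, c • q, by simp [hq], ?_⟩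
    rw [← Matrix.diagonal_smul]
    congr 1
    funext i
    fin_cases i <;> ext <;> simp

/-- The orthogonal complement `m` of `h` in `sp(3)`, identified with the tangent space of
`Sp(3) / H` at the origin. -/
def m : Submodule ℝ Mat where
  carrier := {X | X ∈ sp ∧ ∀ Y ∈ h, Q X Y = 0}
  add_mem' := by
    rintro a b ⟨ha, ha'⟩ ⟨hb, hb'⟩
    refine ⟨sp.add_mem ha hb, fun Y hY => ?_⟩
    have h1 := ha' Y hY
    have h2 := hb' Y hY
    unfold Q at h1 h2 ⊢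
    rw [Matrix.add_mul, Matrix.trace_add, Quaternion.re_add]
    linarith
  zero_mem' := ⟨sp.zero_mem, fun Y _ => by simp [Q]⟩
  smul_mem' := by
    rintro c x ⟨hx, hx'⟩
    refine ⟨sp.smul_mem c hx, fun Y hY => ?_⟩
    have h1 := hx' Y hY
    unfold Q at h1 ⊢
    rw [Matrix.smul_mul, Matrix.trace_smul, Quaternion.re_smul]
    simp only [smul_eq_mul]
    linear_combination c * h1

/-- The `h`-component `X_h` of `X`: for `X` in `sp(3)` this is the orthogonal projection to `h`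
(see `prH_mem` and `sub_prH_mem`). -/
noncomputable def prH (X : Mat) : Mat :=
  Matrix.diagonal ![⟨0, ((X 0 0).imI + (X 1 1).imI) / 2, 0, 0⟩,
    ⟨0, ((X 0 0).imI + (X 1 1).imI) / 2, 0, 0⟩, X 2 2]

theorem mem_sp {X : Mat} : X ∈ sp ↔ ∀ i j, star (X j i) = -X i j := by
  constructor
  · intro (hX : Xᴴ = -X) i j
    have := congrFun (congrFun hX i) j
    simpa using this
  · intro hX
    change Xᴴ = -X
    ext1 i j
    simpa using hX i j

theorem sp_diag_re {X : Mat} (hX : X ∈ sp) (i : Fin 3) : (X i i).re = 0 := by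
  have h1 := mem_sp.1 hX i i
  have h2 := congrArg (fun q : ℍ[ℝ] => q.re) h1
  simp at h2
  linarith

/-- `X_h` lies in `h`. -/
theorem prH_mem {X : Mat} (hX : X ∈ sp) : prH X ∈ h :=
  ⟨((X 0 0).imI + (X 1 1).imI) / 2, X 2 2, sp_diag_re hX 2, rfl⟩

theorem h_le_sp : h ≤ sp := by
  rintro _ ⟨t, q, hq, rfl⟩
  rw [mem_sp]
  intro i j
  fin_cases i <;> fin_cases j <;> ext <;> simp [Matrix.diagonal, hq]

/-- Explicit description of `m`. -/
theorem mem_m {X : Mat} : X ∈ m ↔ X ∈ sp ∧ (X 0 0).imI + (X 1 1).imI = 0 ∧ X 2 2 = 0 := by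
  constructor
  · rintro ⟨hX, hX'⟩
    refine ⟨hX, ?_, ?_⟩
    · have h1 := hX' (Matrix.diagonal ![⟨0, 1, 0, 0⟩, ⟨0, 1, 0, 0⟩, 0]) ⟨1, 0, rfl, rfl⟩
      simp [Q, Matrix.trace, Fin.sum_univ_three, Matrix.mul_diagonal] at h1
      linarith
    · have hre := sp_diag_re hX 2
      have h1 := hX' (Matrix.diagonal ![⟨0, 0, 0, 0⟩, ⟨0, 0, 0, 0⟩, ⟨0, 1, 0, 0⟩]) ⟨0, _, rfl, rfl⟩
      have h2 := hX' (Matrix.diagonal ![⟨0, 0, 0, 0⟩, ⟨0, 0, 0, 0⟩, ⟨0, 0, 1, 0⟩]) ⟨0, _, rfl, rfl⟩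
      have h3 := hX' (Matrix.diagonal ![⟨0, 0, 0, 0⟩, ⟨0, 0, 0, 0⟩, ⟨0, 0, 0, 1⟩]) ⟨0, _, rfl, rfl⟩
      simp [Q, Matrix.trace, Fin.sum_univ_three, Matrix.mul_diagonal] at h1 h2 h3
      ext <;> simp <;> assumption
  · rintro ⟨hX, h1, h2⟩
    refine ⟨hX, ?_⟩
    rintro _ ⟨t, q, hq, rfl⟩
    simp [Q, Matrix.trace, Fin.sum_univ_three, Matrix.mul_diagonal, h2]
    linear_combination t * h1

/-- `X - X_h` lies in `m`. -/
theorem sub_prH_mem {X : Mat} (hX : X ∈ sp) : X - prH X ∈ m := by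
  rw [mem_m]
  refine ⟨sp.sub_mem hX (h_le_sp (prH_mem hX)), ?_, ?_⟩
  · simp [prH]
    ring
  · simp [prH]

/-- The commutator. -/
noncomputable def lie (X Y : Mat) : Mat := X * Y - Y * X

theorem lie_mem_sp {X Y : Mat} (hX : X ∈ sp) (hY : Y ∈ sp) : lie X Y ∈ sp := by
  change Xᴴ = -X at hX
  change Yᴴ = -Y at hY
  change (X * Y - Y * X)ᴴ = -(X * Y - Y * X)
  rw [conjTranspose_sub, conjTranspose_mul, conjTranspose_mul, hX, hY]
  noncomm_ring

theorem lie_mem_m {X Y : Mat} (hX : X ∈ h) (hY : Y ∈ m) : lie X Y ∈ m := by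
  have hXs := h_le_sp hX
  obtain ⟨hYs, h1, h2⟩ := mem_m.1 hY
  rw [mem_m]
  refine ⟨lie_mem_sp hXs hYs, ?_, ?_⟩
  · obtain ⟨t, q, hq, rfl⟩ := hX
    simp [lie, Matrix.diagonal_mul, Matrix.mul_diagonal]
    ring
  · obtain ⟨t, q, hq, rfl⟩ := hX
    simp [lie, Matrix.diagonal_mul, Matrix.mul_diagonal, h2]

/-- The bracket `[x, y]_m`. -/
noncomputable def br (x y : m) : m :=
  ⟨lie x y - prH (lie x y), sub_prH_mem (lie_mem_sp x.2.1 y.2.1)⟩

/-- The operation `[[x, y]_h, z]`. -/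
noncomputable def cu (x y z : m) : m :=
  ⟨lie (prH (lie x y)) z, lie_mem_m (prH_mem (lie_mem_sp x.2.1 y.2.1)) z.2⟩

/-- `F` is `Ad(H)`-invariant: `F (g x g⁻¹) = F x` for `g` in `H` (here `g⁻¹ = gᴴ`). An
`Ad(H)`-invariant Minkowski norm on `m` is the same as an `Sp(3)`-invariant Finsler metric on
`Sp(3) / H`. -/
def IsInvariant (F : m → ℝ) : Prop :=
  ∀ g ∈ H, ∀ x y : m, (y : Mat) = g * (x : Mat) * gᴴ → F y = F x

end Pool.Agent.R734.Sp3
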