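import Pool.Agent.R734.FinslerThm
import Pool.Agent.R734.Sp3

/-!
# Verification of the hypotheses of the obstruction for `Sp(3) / diag(z, z, q)`
-/

set_option autoImplicit false

open Matrix Quaternion

open scoped Matrix.Norms.Frobenius

namespace Pool.Agent.R734.Sp3

theorem prH_add (X Y : Mat) : prH (X + Y) = prH X + prH Y := by
  unfold prH
  rw [Matrix.diagonal_add]
  congr 1
  funext i
  fin_cases i <;> ext <;> simp <;> ring

theorem prH_smul (c : ℝ) (X : Mat) : prH (c • X) = c • prH X := by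
  unfold prH
  rw [← Matrix.diagonal_smul]
  congr 1
  funext i
  fin_cases i <;> ext <;> simp <;> ring

theorem lie_add_left (X Y Z : Mat) : lie (X + Y) Z = lie X Z + lie Y Z := by
  unfold lie; noncomm_ring

theorem lie_add_right (X Y Z : Mat) : lie X (Y + Z) = lie X Y + lie X Z := by
  unfold lie; noncomm_ring

theorem lie_smul_left (c : ℝ) (X Z : Mat) : lie (c • X) Z = c • lie X Z := by
  unfold lie
  rw [Matrix.smul_mul, Matrix.mul_smul, smul_sub]

theorem lie_smul_right (c : ℝ) (X Z : Mat) : lie X (c • Z) = c • lie X Z := by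
  unfold lie
  rw [Matrix.smul_mul, Matrix.mul_smul, smul_sub]

/-- The bracket as a bilinear map. -/
noncomputable def brL : m →ₗ[ℝ] m →ₗ[ℝ] m :=
  LinearMap.mk₂ ℝ br
    (fun x y z => by
      apply Subtype.ext
      simp only [br, Submodule.coe_add, lie_add_left, prH_add]
      abel)
    (fun c x z => by
      apply Subtype.ext
      simp only [br, Submodule.coe_smul, lie_smul_left, prH_smul, smul_sub])
    (fun x y z => by
      apply Subtype.ext
      simp only [br, Submodule.coe_add, lie_add_right, prH_add]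
      abel)
    (fun c x z => by
      apply Subtype.ext
      simp only [br, Submodule.coe_smul, lie_smul_right, prH_smul, smul_sub])

theorem brL_apply (x y : m) : brL x y = br x y := rfl

theorem Q_add_left (X Y Z : Mat) : Q (X + Y) Z = Q X Z + Q Y Z := by
  unfold Q
  rw [Matrix.add_mul, Matrix.trace_add, Quaternion.re_add]
  ring

theorem Q_smul_left (c : ℝ) (X Z : Mat) : Q (c • X) Z = c * Q X Z := by
  unfold Q
  rw [Matrix.smul_mul, Matrix.trace_smul, Quaternion.re_smul, smul_eq_mul]
  ring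

theorem Q_comm (X Y : Mat) : Q X Y = Q Y X := by
  unfold Q
  simp only [Matrix.trace, Matrix.diag, Matrix.mul_apply, Fin.sum_univ_three, Quaternion.re_add,
    Quaternion.re_mul]
  ring

theorem Q_add_right (X Y Z : Mat) : Q X (Y + Z) = Q X Y + Q X Z := by
  rw [Q_comm, Q_add_left, Q_comm Y, Q_comm Z]

theorem Q_smul_right (c : ℝ) (X Z : Mat) : Q X (c • Z) = c * Q X Z := by
  rw [Q_comm, Q_smul_left, Q_comm]

/-- The inner product as a bilinear form on `m`. -/
noncomputable def QL : m →ₗ[ℝ] m →ₗ[ℝ] ℝ :=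
  LinearMap.mk₂ ℝ (fun x y => Q x y)
    (fun x y z => by simp only [Submodule.coe_add, Q_add_left])
    (fun c x z => by simp only [Submodule.coe_smul, Q_smul_left, smul_eq_mul])
    (fun x y z => by simp only [Submodule.coe_add, Q_add_right])
    (fun c x z => by simp only [Submodule.coe_smul, Q_smul_right, smul_eq_mul])

theorem QL_apply (x y : m) : QL x y = Q x y := rfl

theorem Q_pos {X : Mat} (hX : X ∈ sp) (h0 : X ≠ 0) : 0 < Q X X := by
  have h1 : Q X X = ∑ i, ∑ j, ‖X i j‖ ^ 2 := by
    unfold Q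
    have h2 : ∀ i j, (X i j * X j i).re = -‖X i j‖ ^ 2 := by
      intro i j
      have h3 := mem_sp.1 hX j i
      have h4 : X j i = - star (X i j) := by rw [h3, neg_neg]
      rw [h4, mul_neg, Quaternion.re_neg, Quaternion.self_mul_star]
      rw [Quaternion.normSq_eq_norm_mul_self]
      simp
      ring
    rw [Matrix.trace]
    simp only [Matrix.diag, Matrix.mul_apply]
    have h5 : (∑ i, ∑ j, X i j * X j i).re = ∑ i, ∑ j, (X i j * X j i).re := by
      simp only [Fin.sum_univ_three, Quaternion.re_add]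
    rw [h5]
    simp only [h2, Finset.sum_neg_distrib, neg_neg]
  rw [h1]
  by_contra hle
  push Not at hle
  apply h0
  ext1 i j
  have h2 : ∀ i, 0 ≤ ∑ j, ‖X i j‖ ^ 2 := fun i => Finset.sum_nonneg fun j _ => by positivity
  have h3 : ∑ i, ∑ j, ‖X i j‖ ^ 2 = 0 := le_antisymm hle (Finset.sum_nonneg fun i _ => h2 i)
  have h4 := (Finset.sum_eq_zero_iff_of_nonneg fun i _ => h2 i).1 h3 i (Finset.mem_univ i)
  have h5 := (Finset.sum_eq_zero_iff_of_nonneg fun j _ => by positivity).1 h4 j (Finset.mem_univ j)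
  have h6 : ‖X i j‖ = 0 := by simpa using h5
  simpa using h6

theorem Q_lie (X Y Z : Mat) : Q (lie X Y) Z = Q X (lie Y Z) := by
  unfold Q lie
  have h1 : ∀ A B : Mat, (Matrix.trace (A * B)).re = (Matrix.trace (B * A)).re := by
    intro A B
    have := Q_comm A B
    unfold Q at this
    linarith
  rw [Matrix.sub_mul, Matrix.mul_sub, Matrix.trace_sub, Matrix.trace_sub, Quaternion.re_sub,
    Quaternion.re_sub, Matrix.mul_assoc X Y Z, Matrix.mul_assoc Y X Z, h1 Y (X * Z),
    Matrix.mul_assoc X Z Y]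

theorem Q_prH {X : Mat} (hX : X ∈ sp) (z : m) : Q (prH X) z = 0 := by
  rw [Q_comm]
  exact z.2.2 _ (prH_mem hX)

theorem QL_ad (x y z : m) : QL (brL x y) z = QL x (brL y z) := by
  rw [QL_apply, QL_apply, brL_apply, brL_apply]
  have e1 : ((br x y : m) : Mat) + prH (lie x y) = lie x y := by
    simp [br]
  have e2 : ((br y z : m) : Mat) + prH (lie y z) = lie y z := by
    simp [br]
  have h1 : Q (lie x y) z = Q (br x y : m) z := by
    rw [← e1, Q_add_left, Q_prH (lie_mem_sp x.2.1 y.2.1) z, add_zero]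
  have h2 : Q x (lie y z) = Q x (br y z : m) := by
    rw [← e2, Q_add_right, Q_comm _ (prH _), Q_prH (lie_mem_sp y.2.1 z.2.1) x, add_zero]
  rw [← h1, ← h2, Q_lie]

theorem brL_skew (x y : m) : brL x y = - brL y x := by
  apply Subtype.ext
  rw [brL_apply, brL_apply]
  have h1 : lie (x : Mat) y = (-1 : ℝ) • lie (y : Mat) x := by
    unfold lie
    rw [neg_smul, one_smul, neg_sub]
  simp only [br, Submodule.coe_neg]
  rw [h1, prH_smul, neg_smul, neg_smul, one_smul, one_smul]
  abel

/-- The element `k = diag(1, 1, -1)` of `H`. -/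
noncomputable def k : Mat := Matrix.diagonal ![1, 1, -1]

theorem k_mem : k ∈ H := by
  refine ⟨1, -1, rfl, rfl, by simp, by simp, rfl⟩

/-- The signs of `k`. -/
def sg : Fin 3 → ℝ := ![1, 1, -1]

theorem sg_sq (i : Fin 3) : sg i * sg i = 1 := by
  fin_cases i <;> simp [sg]

theorem k_conj (X : Mat) (i j : Fin 3) : (k * X * kᴴ) i j = (sg i * sg j) • X i j := by
  fin_cases i <;> fin_cases j <;>
    simp [k, sg, Matrix.diagonal_mul, Matrix.mul_diagonal, Matrix.diagonal_conjTranspose]

/-- Conjugation with `k`. -/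
noncomputable def kc (X : Mat) : Mat := Matrix.of fun i j => (sg i * sg j) • X i j

theorem kc_apply (X : Mat) (i j : Fin 3) : kc X i j = (sg i * sg j) • X i j := rfl

theorem kc_eq (X : Mat) : kc X = k * X * kᴴ := by
  ext1 i j
  rw [k_conj, kc_apply]

theorem kc_diag (X : Mat) (i : Fin 3) : kc X i i = X i i := by
  rw [kc_apply, sg_sq, one_smul]

theorem kc_mem_sp {X : Mat} (hX : X ∈ sp) : kc X ∈ sp := by
  rw [mem_sp] at hX ⊢
  intro i j
  rw [kc_apply, kc_apply, Quaternion.star_smul, hX i j, smul_neg, mul_comm]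

theorem kc_mem {X : Mat} (hX : X ∈ m) : kc X ∈ m := by
  rw [mem_m] at hX ⊢
  exact ⟨kc_mem_sp hX.1, by rw [kc_diag, kc_diag]; exact hX.2.1, by rw [kc_diag]; exact hX.2.2⟩

theorem kc_kc (X : Mat) : kc (kc X) = X := by
  ext1 i j
  rw [kc_apply, kc_apply, smul_smul]
  have h1 : sg i * sg j * (sg i * sg j) = 1 := by
    calc sg i * sg j * (sg i * sg j) = (sg i * sg i) * (sg j * sg j) := by ring
      _ = 1 := by rw [sg_sq, sg_sq, one_mul]
  rw [h1, one_smul]

theorem kc_mul (X Y : Mat) : kc (X * Y) = kc X * kc Y := by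
  ext1 i j
  rw [kc_apply, Matrix.mul_apply, Matrix.mul_apply, Finset.smul_sum]
  refine Finset.sum_congr rfl fun l _ => ?_
  rw [kc_apply, kc_apply, smul_mul_smul_comm]
  congr 1
  calc sg i * sg j = sg i * (sg l * sg l) * sg j := by rw [sg_sq, mul_one]
    _ = sg i * sg l * (sg l * sg j) := by ring

theorem kc_sub (X Y : Mat) : kc (X - Y) = kc X - kc Y := by
  ext1 i j
  simp only [kc_apply, Matrix.sub_apply, smul_sub]

theorem kc_lie (X Y : Mat) : kc (lie X Y) = lie (kc X) (kc Y) := by
  unfold lie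
  rw [kc_sub, kc_mul, kc_mul]

theorem prH_kc (X : Mat) : prH (kc X) = prH X := by
  unfold prH
  simp only [kc_diag]

theorem kc_prH (X : Mat) : kc (prH X) = prH X := by
  ext1 i j
  rw [kc_apply]
  by_cases hij : i = j
  · subst hij
    rw [sg_sq, one_smul]
  · unfold prH
    rw [Matrix.diagonal_apply_ne _ hij, smul_zero]

/-- The involution of `m`. -/
noncomputable def σ : m →ₗ[ℝ] m where
  toFun x := ⟨kc x, kc_mem x.2⟩
  map_add' x y := by
    apply Subtype.ext
    ext1 i j
    simp [kc_apply]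
  map_smul' c x := by
    apply Subtype.ext
    ext1 i j
    simp only [kc_apply, Submodule.coe_smul, Matrix.smul_apply, RingHom.id_apply]
    rw [smul_comm]

theorem σ_coe (x : m) : ((σ x : m) : Mat) = kc x := rfl

theorem σ_σ (x : m) : σ (σ x) = x := by
  apply Subtype.ext
  rw [σ_coe, σ_coe, kc_kc]

theorem σ_br (x y : m) : σ (brL x y) = brL (σ x) (σ y) := by
  apply Subtype.ext
  rw [σ_coe, brL_apply, brL_apply]
  simp only [br]
  rw [kc_sub, kc_lie, kc_prH, σ_coe, σ_coe, ← kc_lie, prH_kc]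

/-- The `-1` eigenspace. -/
noncomputable def p : Submodule ℝ m := LinearMap.ker (σ + LinearMap.id)

/-- The `+1` eigenspace. -/
noncomputable def mp : Submodule ℝ m := LinearMap.ker (σ - LinearMap.id)

theorem mem_p (x : m) : x ∈ p ↔ σ x = -x := by
  unfold p
  rw [LinearMap.mem_ker, LinearMap.add_apply, LinearMap.id_apply, add_eq_zero_iff_eq_neg]

theorem mem_mp (x : m) : x ∈ mp ↔ σ x = x := by
  unfold mp
  rw [LinearMap.mem_ker, LinearMap.sub_apply, LinearMap.id_apply, sub_eq_zero]

theorem p_entry {x : m} (hx : x ∈ p) (i j : Fin 3) (hij : sg i * sg j = 1) :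
    (x : Mat) i j = 0 := by
  have h1 := (mem_p x).1 hx
  have h2 := congrArg (fun y : m => (y : Mat) i j) h1
  simp only [σ_coe, kc_apply, hij, one_smul, Submodule.coe_neg, Matrix.neg_apply] at h2
  have h3 : (2 : ℝ) • (x : Mat) i j = 0 := by
    rw [two_smul]
    nth_rewrite 1 [h2]
    abel
  rcases smul_eq_zero.1 h3 with h | h
  · norm_num at h
  · exact h

theorem mp_entry {x : m} (hx : x ∈ mp) (i j : Fin 3) (hij : sg i * sg j = -1) :
    (x : Mat) i j = 0 := by
  have h1 := (mem_mp x).1 hx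
  have h2 := congrArg (fun y : m => (y : Mat) i j) h1
  simp only [σ_coe, kc_apply, hij, neg_smul, one_smul] at h2
  have h3 : (2 : ℝ) • (x : Mat) i j = 0 := by
    rw [two_smul]
    nth_rewrite 1 [← h2]
    abel
  rcases smul_eq_zero.1 h3 with h | h
  · norm_num at h
  · exact h

theorem cu_zero (y : m) (hy : y ∈ mp) (u : m) (hu : u ∈ p) : cu y u y = 0 := by
  have h1 : prH (lie (y : Mat) u) = 0 := by
    have h2 : kc (lie (y : Mat) u) = - lie (y : Mat) u := by
      rw [kc_lie, ← σ_coe, ← σ_coe, (mem_mp y).1 hy, (mem_p u).1 hu, Submodule.coe_neg]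
      unfold lie
      noncomm_ring
    have h3 := prH_kc (lie (y : Mat) u)
    rw [h2] at h3
    have h4 : prH (-lie (y : Mat) u) = -prH (lie (y : Mat) u) := by
      have := prH_smul (-1) (lie (y : Mat) u)
      simpa using this
    rw [h4] at h3
    have h5 : (2 : ℝ) • prH (lie (y : Mat) u) = 0 := by
      rw [two_smul]
      nth_rewrite 1 [← h3]
      abel
    rcases smul_eq_zero.1 h5 with h | h
    · norm_num at h
    · exact h
  apply Subtype.ext
  simp only [cu, h1]
  simp [lie]

theorem finrank_p_le : Module.finrank ℝ p ≤ 8 := by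
  let f : p →ₗ[ℝ] ℍ[ℝ] × ℍ[ℝ] :=
    { toFun := fun x => (((x : m) : Mat) 0 2, ((x : m) : Mat) 1 2)
      map_add' := fun x y => by simp
      map_smul' := fun c x => by simp }
  have hf : Function.Injective f := by
    rw [injective_iff_map_eq_zero]
    intro x hx
    have h1 : ((x : m) : Mat) 0 2 = 0 := congrArg Prod.fst hx
    have h2 : ((x : m) : Mat) 1 2 = 0 := congrArg Prod.snd hx
    have hs := mem_sp.1 (x : m).2.1
    have h3 : ((x : m) : Mat) 2 0 = 0 := by
      have := hs 2 0
      rw [h1, star_zero] at this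
      exact neg_eq_zero.1 this.symm
    have h4 : ((x : m) : Mat) 2 1 = 0 := by
      have := hs 2 1
      rw [h2, star_zero] at this
      exact neg_eq_zero.1 this.symm
    apply Subtype.ext
    apply Subtype.ext
    ext1 i j
    have hp := p_entry x.2
    fin_cases i <;> fin_cases j
    · exact hp 0 0 (sg_sq 0)
    · exact hp 0 1 (by simp [sg])
    · exact h1
    · exact hp 1 0 (by simp [sg])
    · exact hp 1 1 (sg_sq 1)
    · exact h2
    · exact h3
    · exact h4
    · exact hp 2 2 (sg_sq 2)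
  have h1 := LinearMap.finrank_le_finrank_of_injective hf
  have h2 : Module.finrank ℝ (ℍ[ℝ] × ℍ[ℝ]) = 8 := by
    rw [Module.finrank_prod, Quaternion.finrank_eq_four]
  omega

/-- Parametrisation of the `+1` eigenspace. -/
noncomputable def par (b : ℍ[ℝ]) (c : Fin 5 → ℝ) : Mat :=
  !![⟨0, c 0, c 1, c 2⟩, b, 0; -star b, ⟨0, -c 0, c 3, c 4⟩, 0; 0, 0, 0]

theorem par_mem (b : ℍ[ℝ]) (c : Fin 5 → ℝ) : par b c ∈ m := by
  rw [mem_m, mem_sp]
  refine ⟨?_, by simp [par], by simp [par]⟩
  intro i j
  fin_cases i <;> fin_cases j <;> simp [par]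

theorem le_finrank_mp : 9 ≤ Module.finrank ℝ mp := by
  let f : ℍ[ℝ] × (Fin 5 → ℝ) →ₗ[ℝ] m :=
    { toFun := fun x => ⟨par x.1 x.2, par_mem x.1 x.2⟩
      map_add' := fun x y => by
        apply Subtype.ext
        ext1 i j
        fin_cases i <;> fin_cases j <;> simp [par] <;> (try ext) <;> simp <;> ring
      map_smul' := fun c x => by
        apply Subtype.ext
        ext1 i j
        fin_cases i <;> fin_cases j <;> simp [par] <;> (try ext) <;> simp }
  have hmem : ∀ x, f x ∈ mp := by
    intro x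
    rw [mem_mp]
    apply Subtype.ext
    rw [σ_coe]
    ext1 i j
    rw [kc_apply]
    fin_cases i <;> fin_cases j <;> simp [f, par, sg]
  have hf : Function.Injective (f.codRestrict mp hmem) := by
    rw [injective_iff_map_eq_zero]
    rintro ⟨b, c⟩ hx
    have h0 : par b c = 0 := congrArg (fun y : mp => ((y : m) : Mat)) hx
    have h1 : b = 0 := by
      have := congrFun (congrFun h0 0) 1
      simpa [par] using this
    have h2 := congrFun (congrFun h0 0) 0
    have h3 := congrFun (congrFun h0 1) 1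
    have a1 := congrArg (fun q : ℍ[ℝ] => q.imI) h2
    have a2 := congrArg (fun q : ℍ[ℝ] => q.imJ) h2
    have a3 := congrArg (fun q : ℍ[ℝ] => q.imK) h2
    have a4 := congrArg (fun q : ℍ[ℝ] => q.imJ) h3
    have a5 := congrArg (fun q : ℍ[ℝ] => q.imK) h3
    simp [par] at a1 a2 a3 a4 a5
    rw [h1]
    congr 1
    funext i
    fin_cases i <;> simp [a1, a2, a3, a4, a5]
  have h1 := LinearMap.finrank_le_finrank_of_injective hf
  have h2 : Module.finrank ℝ (ℍ[ℝ] × (Fin 5 → ℝ)) = 9 := by
    rw [Module.finrank_prod, Quaternion.finrank_eq_four, Module.finrank_fin_fun]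
  omega

theorem p_ne_bot : p ≠ ⊥ := by
  rw [Submodule.ne_bot_iff]
  let X : Mat := !![0, 0, 1; 0, 0, 0; -1, 0, 0]
  have hX : X ∈ m := by
    rw [mem_m, mem_sp]
    refine ⟨?_, by simp [X], by simp [X]⟩
    intro i j
    fin_cases i <;> fin_cases j <;> simp [X]
  refine ⟨⟨X, hX⟩, ?_, ?_⟩
  · rw [mem_p]
    apply Subtype.ext
    rw [σ_coe]
    ext1 i j
    rw [kc_apply]
    fin_cases i <;> fin_cases j <;> simp [X, sg]
  · intro h0
    have h1 : X = 0 := congrArg (fun y : m => (y : Mat)) h0
    have := congrFun (congrFun h1 0) 2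
    simp [X] at this

/-- No `Sp(3)`-invariant reversible Finsler metric on `Sp(3) / diag(z, z, q)` has positive flag
curvature. -/
theorem no_positive (F : m → ℝ) (hF : Finsler.IsMinkowski F) (hrev : Finsler.IsReversible F)
    (hinv : IsInvariant F) : ¬ Finsler.IsPositivelyCurved F br cu := by
  refine Finsler.not_positive hF hrev QL (fun x y => Q_comm x y) ?_ brL cu σ σ_σ ?_ σ_br brL_skew
    QL_ad p mp mem_p mem_mp cu_zero p_ne_bot ?_
  · intro x hx
    exact Q_pos x.2.1 fun h => hx (Subtype.ext h)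
  · intro x
    exact hinv k k_mem x (σ x) (by rw [σ_coe, kc_eq])
  · have h1 := finrank_p_le
    have h2 := le_finrank_mp
    omega

end Pool.Agent.R734.Sp3
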